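import Mathlib

/-!
# Decomposition of circuits with small read multiplicity

An abstract circuit with conjunction nodes, disjunction nodes and atoms, together with numbers
`mu w i` bounding how often a proof of the node `w` reads the variable `i`. The function of a node
is a disjunction of few conjunctions of pieces, each piece being the function of a node or of a
one-hole context, such that every piece depends on few variables of `V` and every variable `i` of
`V` occurs in at most `mu w i` pieces.
-/

namespace Pool.Agent.Lib_MP_22d2c8_read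

open Finset

/-- the kind of a node -/
inductive Kind (W : Type) where
  | atom : Kind W
  | and (a b : W) : Kind W
  | or (a b : W) : Kind W

/-- an abstract circuit with variables `N` and nodes `W` -/
structure Net (N W : Type) where
  kind : W → Kind W
  rank : W → ℕ
  val : (N → Bool) → W → Prop
  mu : W → N → ℕ
  rank_and : ∀ w a b, kind w = .and a b → rank a < rank w ∧ rank b < rank w
  rank_or : ∀ w a b, kind w = .or a b → rank a < rank w ∧ rank b < rank w
  val_and : ∀ x w a b, kind w = .and a b → (val x w ↔ val x a ∧ val x b)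
  val_or : ∀ x w a b, kind w = .or a b → (val x w ↔ val x a ∨ val x b)
  mu_and : ∀ w a b i, kind w = .and a b → mu a i + mu b i ≤ mu w i
  mu_or : ∀ w a b i, kind w = .or a b → mu a i ≤ mu w i ∧ mu b i ≤ mu w i
  dep : ∀ w x y, (∀ i, 1 ≤ mu w i → x i = y i) → val x w → val y w

namespace Net

variable {N W : Type} (D : Net N W)

/-- `Ctx x v u`: there is a partial proof of the node `u` with the hole `v` -/
inductive Ctx (x : N → Bool) (v : W) : W → Prop where
  | hole : Ctx x v v
  | andl {u a b : W} : D.kind u = .and a b → Ctx x v a → D.val x b → Ctx x v u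
  | andr {u a b : W} : D.kind u = .and a b → D.val x a → Ctx x v b → Ctx x v u
  | orl {u a b : W} : D.kind u = .or a b → Ctx x v a → Ctx x v u
  | orr {u a b : W} : D.kind u = .or a b → Ctx x v b → Ctx x v u

variable {D}

lemma Ctx.val {x : N → Bool} {v u : W} (h : D.Ctx x v u) (hv : D.val x v) : D.val x u := by
  induction h with
  | hole => exact hv
  | andl hk _ hb ih => exact (D.val_and x _ _ _ hk).2 ⟨ih, hb⟩
  | andr hk ha _ ih => exact (D.val_and x _ _ _ hk).2 ⟨ha, ih⟩
  | orl hk _ ih => exact (D.val_or x _ _ _ hk).2 (Or.inl ih)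
  | orr hk _ ih => exact (D.val_or x _ _ _ hk).2 (Or.inr ih)

lemma Ctx.mu_le {x : N → Bool} {v u : W} (h : D.Ctx x v u) (i : N) : D.mu v i ≤ D.mu u i := by
  induction h with
  | hole => exact le_rfl
  | andl hk _ _ ih => have := D.mu_and _ _ _ i hk; omega
  | andr hk _ _ ih => have := D.mu_and _ _ _ i hk; omega
  | orl hk _ ih => have := (D.mu_or _ _ _ i hk).1; omega
  | orr hk _ ih => have := (D.mu_or _ _ _ i hk).2; omega

lemma Ctx.dep {x y : N → Bool} {v u : W} (h : D.Ctx x v u)
    (hxy : ∀ i, D.mu v i < D.mu u i → x i = y i) : D.Ctx y v u := by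
  induction h with
  | hole => exact Ctx.hole
  | andl hk hc hb ih =>
    refine Ctx.andl hk (ih fun i hi => hxy i ?_) (D.dep _ x y (fun i hi => hxy i ?_) hb)
    · have := D.mu_and _ _ _ i hk; omega
    · have h1 := D.mu_and _ _ _ i hk; have h2 := hc.mu_le i; omega
  | andr hk ha hc ih =>
    refine Ctx.andr hk (D.dep _ x y (fun i hi => hxy i ?_) ha) (ih fun i hi => hxy i ?_)
    · have h1 := D.mu_and _ _ _ i hk; have h2 := hc.mu_le i; omega
    · have := D.mu_and _ _ _ i hk; omega
  | orl hk _ ih =>
    refine Ctx.orl hk (ih fun i hi => hxy i ?_)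
    have := (D.mu_or _ _ _ i hk).1; omega
  | orr hk _ ih =>
    refine Ctx.orr hk (ih fun i hi => hxy i ?_)
    have := (D.mu_or _ _ _ i hk).2; omega

variable (D)

/-- the weight of a node -/
def wt (V : Finset N) (w : W) : ℕ := ∑ i ∈ V, D.mu w i

/-- walking down a proof to the last node of weight at least `t` -/
lemma walk (V : Finset N) (t : ℕ) (x : N → Bool) :
    ∀ (r : ℕ) (u : W), D.rank u ≤ r → D.val x u → t ≤ D.wt V u →
    ∃ v, D.Ctx x v u ∧ t ≤ D.wt V v ∧ D.val x v ∧
      (D.kind v = .atom ∨
        (∃ a b, D.kind v = .or a b ∧ ((D.val x a ∧ D.wt V a < t) ∨ (D.val x b ∧ D.wt V b < t))) ∨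
        (∃ a b, D.kind v = .and a b ∧ D.val x a ∧ D.val x b ∧ D.wt V a < t ∧ D.wt V b < t)) := by
  intro r
  induction r with
  | zero =>
    intro u hr hu ht
    refine ⟨u, Ctx.hole, ht, hu, Or.inl ?_⟩
    cases hk : D.kind u with
    | atom => rfl
    | and a b => have := D.rank_and _ _ _ hk; omega
    | or a b => have := D.rank_or _ _ _ hk; omega
  | succ r ih =>
    intro u hr hu ht
    cases hk : D.kind u with
    | atom => exact ⟨u, Ctx.hole, ht, hu, Or.inl hk⟩
    | or a b =>
      have hrk := D.rank_or _ _ _ hk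
      rcases (D.val_or x _ _ _ hk).1 hu with ha | hb
      · by_cases hw : D.wt V a < t
        · exact ⟨u, Ctx.hole, ht, hu, Or.inr (Or.inl ⟨a, b, hk, Or.inl ⟨ha, hw⟩⟩)⟩
        · obtain ⟨v, h1, h2⟩ := ih a (by omega) ha (by omega)
          exact ⟨v, Ctx.orl hk h1, h2⟩
      · by_cases hw : D.wt V b < t
        · exact ⟨u, Ctx.hole, ht, hu, Or.inr (Or.inl ⟨a, b, hk, Or.inr ⟨hb, hw⟩⟩)⟩
        · obtain ⟨v, h1, h2⟩ := ih b (by omega) hb (by omega)
          exact ⟨v, Ctx.orr hk h1, h2⟩
    | and a b =>
      have hrk := D.rank_and _ _ _ hk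
      obtain ⟨ha, hb⟩ := (D.val_and x _ _ _ hk).1 hu
      by_cases hwa : D.wt V a < t
      · by_cases hwb : D.wt V b < t
        · exact ⟨u, Ctx.hole, ht, hu, Or.inr (Or.inr ⟨a, b, hk, ha, hb, hwa, hwb⟩)⟩
        · obtain ⟨v, h1, h2⟩ := ih b (by omega) hb (by omega)
          exact ⟨v, Ctx.andr hk ha h1, h2⟩
      · obtain ⟨v, h1, h2⟩ := ih a (by omega) ha (by omega)
        exact ⟨v, Ctx.andl hk h1 hb, h2⟩

/-- the condition stated by a piece: a node, or a context with its hole -/
def Holds (x : N → Bool) (p : W × Option W) : Prop :=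
  match p.2 with
  | none => D.val x p.1
  | some v => D.Ctx x v p.1

/-- the variables of a piece -/
def Var (p : W × Option W) (i : N) : Prop :=
  match p.2 with
  | none => 1 ≤ D.mu p.1 i
  | some v => D.mu v i < D.mu p.1 i

lemma holds_dep {x y : N → Bool} {p : W × Option W} (h : D.Holds x p)
    (hxy : ∀ i, D.Var p i → x i = y i) : D.Holds y p := by
  obtain ⟨u, o⟩ := p
  cases o with
  | none => exact D.dep u x y hxy h
  | some v => exact Ctx.dep h hxy

open Classical in
/-- `P` is a good family of products of pieces for the conjunction of the nodes with the total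
multiplicities `m` -/
structure Good (V : Finset N) (L : ℕ) (m : N → ℕ) (F : (N → Bool) → Prop)
    (P : Finset (List (W × Option W))) : Prop where
  count : ∀ l ∈ P, ∀ i ∈ V, l.countP (fun p => decide (D.Var p i)) ≤ m i
  small : ∀ l ∈ P, ∀ p ∈ l, (V.filter (fun i => D.Var p i)).card ≤ L
  sound : ∀ l ∈ P, ∀ x, (∀ p ∈ l, D.Holds x p) → F x
  complete : ∀ x, F x → ∃ l ∈ P, ∀ p ∈ l, D.Holds x p

/-- the exponent in the number of products -/
def expo (L a : ℕ) : ℕ := if a ≤ L then 0 else 2 * a / L - 1

lemma expo_le (L a : ℕ) : expo L a ≤ 2 * a / L := by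
  unfold expo
  split
  · exact Nat.zero_le _
  · exact Nat.sub_le _ _

lemma two_le_div {L a : ℕ} (hL : 1 ≤ L) (h : L < a) : 2 ≤ 2 * a / L := by
  rw [Nat.le_div_iff_mul_le hL]
  omega

lemma expo_pos_eq {L a : ℕ} (h : L < a) : expo L a = 2 * a / L - 1 := by
  unfold expo
  rw [if_neg (by omega)]

lemma expo_or {L a a' : ℕ} (hL : 1 ≤ L) (ha : L < a) (h : a' < a - L) :
    expo L a' + 1 ≤ expo L a := by
  have h2 := two_le_div hL ha
  rw [expo_pos_eq ha]
  by_cases h3 : a' ≤ L
  · have : expo L a' = 0 := by unfold expo; rw [if_pos h3]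
    omega
  · rw [expo_pos_eq (by omega : L < a')]
    have h4 := two_le_div hL (by omega : L < a')
    have h6 : 2 * a' / L + 2 ≤ 2 * a / L := by
      rw [← Nat.add_mul_div_left _ _ hL]
      exact Nat.div_le_div_right (by omega)
    omega

lemma expo_and {L a b c : ℕ} (hL : 1 ≤ L) (ha : L < a) (hb : b < a - L) (hc : c < a - L)
    (hbc : b + c ≤ a) : expo L b + expo L c + 1 ≤ expo L a := by
  by_cases hb' : b ≤ L
  · have : expo L b = 0 := by unfold expo; rw [if_pos hb']
    rw [this, zero_add]
    exact expo_or hL ha hc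
  by_cases hc' : c ≤ L
  · have : expo L c = 0 := by unfold expo; rw [if_pos hc']
    rw [this, add_zero]
    exact expo_or hL ha hb
  rw [expo_pos_eq ha, expo_pos_eq (by omega : L < b), expo_pos_eq (by omega : L < c)]
  have h3 := two_le_div hL (by omega : L < b)
  have h4 := two_le_div hL (by omega : L < c)
  have h5 : 2 * b / L + 2 * c / L ≤ 2 * a / L :=
    Nat.div_add_div_le_add_div.trans (Nat.div_le_div_right (by omega))
  omega

open Classical in
lemma card_var_le (V : Finset N) (u v : W) (h : ∀ i, D.mu v i ≤ D.mu u i) :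
    (V.filter (fun i => D.mu v i < D.mu u i)).card ≤ D.wt V u - D.wt V v := by
  have h1 : D.wt V v + (V.filter (fun i => D.mu v i < D.mu u i)).card ≤ D.wt V u := by
    rw [Finset.card_filter, wt, wt, ← Finset.sum_add_distrib]
    refine Finset.sum_le_sum fun i _ => ?_
    have := h i
    split <;> omega
  omega

open Classical in
lemma card_supp_le (V : Finset N) (u : W) :
    (V.filter (fun i => 1 ≤ D.mu u i)).card ≤ D.wt V u := by
  rw [Finset.card_filter, wt]
  refine Finset.sum_le_sum fun i _ => ?_
  split <;> omega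

open Classical in
/-- the products for the node `u` that go through the node `v`, given the products `f` of the
children of `v` -/
noncomputable def through (V : Finset N) (t : ℕ) (u v : W)
    (f : W → Finset (List (W × Option W))) : Finset (List (W × Option W)) :=
  if (∀ i, D.mu v i ≤ D.mu u i) ∧ t ≤ D.wt V v then
    match D.kind v with
    | .atom => {[(u, some v), (v, none)]}
    | .or a b => ((if D.wt V a < t then f a else ∅).image (fun l => (u, some v) :: l)) ∪
        ((if D.wt V b < t then f b else ∅).image (fun l => (u, some v) :: l))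
    | .and a b => if D.wt V a < t ∧ D.wt V b < t then
        Finset.image₂ (fun l l' => (u, some v) :: (l ++ l')) (f a) (f b) else ∅
  else ∅

open Classical in
lemma mem_through {V : Finset N} {t : ℕ} {u v : W} {f : W → Finset (List (W × Option W))}
    {l : List (W × Option W)} : l ∈ D.through V t u v f ↔
    (∀ i, D.mu v i ≤ D.mu u i) ∧ t ≤ D.wt V v ∧
      ((D.kind v = .atom ∧ l = [(u, some v), (v, none)]) ∨
       (∃ a b, D.kind v = .or a b ∧ ((D.wt V a < t ∧ ∃ l' ∈ f a, l = (u, some v) :: l') ∨
          (D.wt V b < t ∧ ∃ l' ∈ f b, l = (u, some v) :: l'))) ∨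
       (∃ a b, D.kind v = .and a b ∧ D.wt V a < t ∧ D.wt V b < t ∧
          ∃ l₁ ∈ f a, ∃ l₂ ∈ f b, l = (u, some v) :: (l₁ ++ l₂))) := by
  unfold through
  split
  · rename_i h
    rw [← and_assoc, and_iff_right h]
    split
    · rename_i hk
      simp [hk]
    · rename_i a b hk
      simp only [hk, Finset.mem_union, Finset.mem_image, reduceCtorEq, false_and, exists_false,
        false_or, or_false, Kind.or.injEq]
      constructor
      · rintro (⟨l', hl', rfl⟩ | ⟨l', hl', rfl⟩)
        · by_cases hw : D.wt V a < t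
          · rw [if_pos hw] at hl'
            exact ⟨a, b, ⟨rfl, rfl⟩, Or.inl ⟨hw, l', hl', rfl⟩⟩
          · rw [if_neg hw] at hl'
            simp at hl'
        · by_cases hw : D.wt V b < t
          · rw [if_pos hw] at hl'
            exact ⟨a, b, ⟨rfl, rfl⟩, Or.inr ⟨hw, l', hl', rfl⟩⟩
          · rw [if_neg hw] at hl'
            simp at hl'
      · rintro ⟨a', b', ⟨rfl, rfl⟩, (⟨hw, l', hl', rfl⟩ | ⟨hw, l', hl', rfl⟩)⟩
        · refine Or.inl ⟨l', ?_, rfl⟩
          rw [if_pos hw]
          exact hl'
        · refine Or.inr ⟨l', ?_, rfl⟩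
          rw [if_pos hw]
          exact hl'
    · rename_i a b hk
      simp only [hk, reduceCtorEq, false_and, exists_false, false_or, Kind.and.injEq]
      constructor
      · intro hl
        by_cases hw : D.wt V a < t ∧ D.wt V b < t
        · rw [if_pos hw] at hl
          obtain ⟨l₁, h₁, l₂, h₂, rfl⟩ := Finset.mem_image₂.1 hl
          exact ⟨a, b, ⟨rfl, rfl⟩, hw.1, hw.2, l₁, h₁, l₂, h₂, rfl⟩
        · rw [if_neg hw] at hl
          simp at hl
      · rintro ⟨a', b', ⟨rfl, rfl⟩, hw1, hw2, l₁, h₁, l₂, h₂, rfl⟩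
        rw [if_pos ⟨hw1, hw2⟩]
        exact Finset.mem_image₂.2 ⟨l₁, h₁, l₂, h₂, rfl⟩
  · rename_i h
    simp only [Finset.notMem_empty, false_iff]
    rintro ⟨h1, h2, _⟩
    exact h ⟨h1, h2⟩

open Classical in
lemma card_through {V : Finset N} {t : ℕ} {u v : W} {f : W → Finset (List (W × Option W))}
    {c : ℕ} (hc : 1 ≤ c)
    (hor : ∀ a, D.wt V a < t → (f a).card ≤ c)
    (hand : ∀ a b, D.kind v = .and a b → (∀ i, D.mu v i ≤ D.mu u i) → D.wt V a < t →
      D.wt V b < t → (f a).card * (f b).card ≤ c) :
    (D.through V t u v f).card ≤ 2 * c := by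
  unfold through
  split
  · rename_i h
    split
    · rw [Finset.card_singleton]
      omega
    · rename_i a b hk
      refine (Finset.card_union_le _ _).trans ?_
      have h1 : ∀ a, ((if D.wt V a < t then f a else ∅).image
          (fun l => (u, some v) :: l)).card ≤ c := by
        intro a
        refine Finset.card_image_le.trans ?_
        by_cases hw : D.wt V a < t
        · rw [if_pos hw]
          exact hor a hw
        · rw [if_neg hw]
          simp
      have := h1 a
      have := h1 b
      omega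
    · rename_i a b hk
      split
      · rename_i hw
        refine (Finset.card_image₂_le _ _ _).trans ?_
        have := hand a b hk h.1 hw.1 hw.2
        omega
      · simp
  · simp

open Classical in
lemma small_none {V : Finset N} {L : ℕ} {u : W}
    (h : (V.filter (fun i => 1 ≤ D.mu u i)).card ≤ L) :
    (V.filter (fun i => D.Var (u, none) i)).card ≤ L := by
  refine le_trans (Finset.card_le_card ?_) h
  intro i hi
  rw [Finset.mem_filter] at hi ⊢
  exact hi

open Classical in
lemma small_some {V : Finset N} {L : ℕ} {u v : W}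
    (h : (V.filter (fun i => D.mu v i < D.mu u i)).card ≤ L) :
    (V.filter (fun i => D.Var (u, some v) i)).card ≤ L := by
  refine le_trans (Finset.card_le_card ?_) h
  intro i hi
  rw [Finset.mem_filter] at hi ⊢
  exact hi

open Classical in
lemma decomp_node [Fintype W] (V : Finset N) (L : ℕ) (hL : 1 ≤ L)
    (hatom : ∀ w, D.kind w = .atom → (V.filter (fun i => 1 ≤ D.mu w i)).card ≤ L) :
    ∀ (r : ℕ) (u : W), D.wt V u ≤ r → ∃ P : Finset (List (W × Option W)),
      D.Good V L (D.mu u) (fun x => D.val x u) P ∧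
      P.card ≤ (2 * Fintype.card W) ^ (expo L (D.wt V u)) := by
  intro r
  induction r using Nat.strong_induction_on with
  | _ r ih =>
  intro u hur
  by_cases hsmall : D.wt V u ≤ L
  · refine ⟨{[(u, none)]}, ⟨?_, ?_, ?_, ?_⟩, ?_⟩
    · intro l hl i _
      rw [Finset.mem_singleton] at hl
      subst hl
      rw [List.countP_singleton]
      simp only [Var]
      by_cases h1 : 1 ≤ D.mu u i
      · simp [h1]
      · simp [h1]
    · intro l hl p hp
      rw [Finset.mem_singleton] at hl
      subst hl
      rw [List.mem_singleton] at hp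
      subst hp
      exact D.small_none ((D.card_supp_le V u).trans hsmall)
    · intro l hl x hx
      rw [Finset.mem_singleton] at hl
      subst hl
      exact hx (u, none) (List.mem_singleton.2 rfl)
    · intro x hx
      refine ⟨_, Finset.mem_singleton_self _, ?_⟩
      intro p hp
      rw [List.mem_singleton] at hp
      subst hp
      exact hx
    · rw [Finset.card_singleton]
      unfold expo
      rw [if_pos hsmall, pow_zero]
  · push Not at hsmall
    set t := D.wt V u - L with ht
    have hex : ∀ w : W, ∃ P : Finset (List (W × Option W)), D.wt V w < t →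
        D.Good V L (D.mu w) (fun x => D.val x w) P ∧
        P.card ≤ (2 * Fintype.card W) ^ (expo L (D.wt V w)) := by
      intro w
      by_cases hw : D.wt V w < t
      · obtain ⟨P, hP⟩ := ih (D.wt V w) (by omega) w le_rfl
        exact ⟨P, fun _ => hP⟩
      · exact ⟨∅, fun h => absurd h hw⟩
    choose f hf using hex
    have hM : 1 ≤ 2 * Fintype.card W := by
      have : 0 < Fintype.card W := Fintype.card_pos_iff.2 ⟨u⟩
      omega
    refine ⟨Finset.univ.biUnion (fun v => D.through V t u v f), ⟨?_, ?_, ?_, ?_⟩, ?_⟩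
    · -- count
      intro l hl i hi
      obtain ⟨v, -, hl⟩ := Finset.mem_biUnion.1 hl
      obtain ⟨hmu, hwt, hcase⟩ := D.mem_through.1 hl
      have key : ∀ l' : List (W × Option W), l'.countP (fun p => decide (D.Var p i)) ≤ D.mu v i →
          ((u, some v) :: l').countP (fun p => decide (D.Var p i)) ≤ D.mu u i := by
        intro l' hl'
        rw [List.countP_cons]
        have h1 := hmu i
        by_cases h2 : D.Var (u, some v) i
        · have h3 : D.mu v i < D.mu u i := h2
          rw [if_pos (by simpa using h2)]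
          omega
        · rw [if_neg (by simpa using h2)]
          omega
      rcases hcase with ⟨hk, rfl⟩ | ⟨a, b, hk, (⟨hw, l', hl', rfl⟩ | ⟨hw, l', hl', rfl⟩)⟩ |
        ⟨a, b, hk, hwa, hwb, l₁, h₁, l₂, h₂, rfl⟩
      · refine key _ ?_
        rw [List.countP_singleton]
        simp only [Var]
        by_cases h1 : 1 ≤ D.mu v i
        · simp [h1]
        · simp [h1]
      · exact key _ (((hf a hw).1.count l' hl' i hi).trans (D.mu_or _ _ _ i hk).1)
      · exact key _ (((hf b hw).1.count l' hl' i hi).trans (D.mu_or _ _ _ i hk).2)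
      · refine key _ ?_
        rw [List.countP_append]
        exact (Nat.add_le_add ((hf a hwa).1.count l₁ h₁ i hi)
          ((hf b hwb).1.count l₂ h₂ i hi)).trans (D.mu_and _ _ _ i hk)
    · -- small
      intro l hl
      obtain ⟨v, -, hl⟩ := Finset.mem_biUnion.1 hl
      obtain ⟨hmu, hwt, hcase⟩ := D.mem_through.1 hl
      have key : ∀ l' : List (W × Option W),
          (∀ p ∈ l', (V.filter (fun i => D.Var p i)).card ≤ L) →
          ∀ p ∈ ((u, some v) :: l'), (V.filter (fun i => D.Var p i)).card ≤ L := by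
        intro l' hl' p hp
        rcases List.mem_cons.1 hp with rfl | hp
        · have h2 : D.wt V u - D.wt V v ≤ L := by omega
          exact D.small_some ((D.card_var_le V u v hmu).trans h2)
        · exact hl' p hp
      rcases hcase with ⟨hk, rfl⟩ | ⟨a, b, hk, (⟨hw, l', hl', rfl⟩ | ⟨hw, l', hl', rfl⟩)⟩ |
        ⟨a, b, hk, hwa, hwb, l₁, h₁, l₂, h₂, rfl⟩
      · refine key _ ?_
        intro p hp
        rw [List.mem_singleton] at hp
        subst hp
        exact D.small_none (hatom v hk)
      · exact key _ ((hf a hw).1.small l' hl')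
      · exact key _ ((hf b hw).1.small l' hl')
      · refine key _ ?_
        intro p hp
        rcases List.mem_append.1 hp with hp | hp
        · exact (hf a hwa).1.small l₁ h₁ p hp
        · exact (hf b hwb).1.small l₂ h₂ p hp
    · -- sound
      intro l hl x hx
      obtain ⟨v, -, hl⟩ := Finset.mem_biUnion.1 hl
      obtain ⟨hmu, hwt, hcase⟩ := D.mem_through.1 hl
      rcases hcase with ⟨hk, rfl⟩ | ⟨a, b, hk, (⟨hw, l', hl', rfl⟩ | ⟨hw, l', hl', rfl⟩)⟩ |
        ⟨a, b, hk, hwa, hwb, l₁, h₁, l₂, h₂, rfl⟩
      · have h1 : D.Ctx x v u := hx (u, some v) (by simp)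
        have h2 : D.val x v := hx (v, none) (by simp)
        exact h1.val h2
      · have h1 : D.Ctx x v u := hx (u, some v) (by simp)
        exact h1.val ((D.val_or x _ _ _ hk).2 (Or.inl ((hf a hw).1.sound l' hl' x
          fun p hp => hx p (List.mem_cons_of_mem _ hp))))
      · have h1 : D.Ctx x v u := hx (u, some v) (by simp)
        exact h1.val ((D.val_or x _ _ _ hk).2 (Or.inr ((hf b hw).1.sound l' hl' x
          fun p hp => hx p (List.mem_cons_of_mem _ hp))))
      · have h1 : D.Ctx x v u := hx (u, some v) (by simp)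
        exact h1.val ((D.val_and x _ _ _ hk).2 ⟨(hf a hwa).1.sound l₁ h₁ x
          fun p hp => hx p (List.mem_cons_of_mem _ (List.mem_append_left _ hp)),
          (hf b hwb).1.sound l₂ h₂ x
          fun p hp => hx p (List.mem_cons_of_mem _ (List.mem_append_right _ hp))⟩)
    · -- complete
      intro x hx
      obtain ⟨v, hc, hwt, hv, hcase⟩ := D.walk V t x (D.rank u) u le_rfl hx (by omega)
      have hmu : ∀ i, D.mu v i ≤ D.mu u i := hc.mu_le
      have key : ∀ l' : List (W × Option W), (∀ p ∈ l', D.Holds x p) →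
          ∀ p ∈ ((u, some v) :: l'), D.Holds x p := by
        intro l' hl' p hp
        rcases List.mem_cons.1 hp with rfl | hp
        · exact hc
        · exact hl' p hp
      rcases hcase with hk | ⟨a, b, hk, (⟨ha, hw⟩ | ⟨hb, hw⟩)⟩ | ⟨a, b, hk, ha, hb, hwa, hwb⟩
      · refine ⟨_, Finset.mem_biUnion.2 ⟨v, Finset.mem_univ _,
          D.mem_through.2 ⟨hmu, hwt, Or.inl ⟨hk, rfl⟩⟩⟩, key _ ?_⟩
        intro p hp
        rw [List.mem_singleton] at hp
        subst hp
        exact hv
      · obtain ⟨l', hl', h'⟩ := (hf a hw).1.complete x ha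
        exact ⟨_, Finset.mem_biUnion.2 ⟨v, Finset.mem_univ _,
          D.mem_through.2 ⟨hmu, hwt, Or.inr (Or.inl ⟨a, b, hk, Or.inl ⟨hw, l', hl', rfl⟩⟩)⟩⟩,
          key _ h'⟩
      · obtain ⟨l', hl', h'⟩ := (hf b hw).1.complete x hb
        exact ⟨_, Finset.mem_biUnion.2 ⟨v, Finset.mem_univ _,
          D.mem_through.2 ⟨hmu, hwt, Or.inr (Or.inl ⟨a, b, hk, Or.inr ⟨hw, l', hl', rfl⟩⟩)⟩⟩,
          key _ h'⟩
      · obtain ⟨l₁, h₁, h₁'⟩ := (hf a hwa).1.complete x ha
        obtain ⟨l₂, h₂, h₂'⟩ := (hf b hwb).1.complete x hb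
        refine ⟨_, Finset.mem_biUnion.2 ⟨v, Finset.mem_univ _,
          D.mem_through.2 ⟨hmu, hwt, Or.inr (Or.inr ⟨a, b, hk, hwa, hwb, l₁, h₁, l₂, h₂, rfl⟩)⟩⟩,
          key _ ?_⟩
        intro p hp
        rcases List.mem_append.1 hp with hp | hp
        · exact h₁' p hp
        · exact h₂' p hp
    · -- the number of products
      have hpos : 1 ≤ expo L (D.wt V u) := by
        rw [expo_pos_eq hsmall]
        have := two_le_div hL hsmall
        omega
      have hcard : ∀ v, (D.through V t u v f).card ≤
          2 * (2 * Fintype.card W) ^ (expo L (D.wt V u) - 1) := by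
        intro v
        refine D.card_through (Nat.one_le_pow _ _ hM) ?_ ?_
        · intro a hw
          refine (hf a hw).2.trans (Nat.pow_le_pow_right hM ?_)
          have := expo_or hL hsmall (a' := D.wt V a) (by omega)
          omega
        · intro a b hk hmu hwa hwb
          refine (Nat.mul_le_mul (hf a hwa).2 (hf b hwb).2).trans ?_
          rw [← pow_add]
          refine Nat.pow_le_pow_right hM ?_
          have hab : D.wt V a + D.wt V b ≤ D.wt V u := by
            unfold wt
            rw [← Finset.sum_add_distrib]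
            exact Finset.sum_le_sum fun i _ => (D.mu_and _ _ _ i hk).trans (hmu i)
          have := expo_and hL hsmall (b := D.wt V a) (c := D.wt V b) (by omega) (by omega) hab
          omega
      calc (Finset.univ.biUnion (fun v => D.through V t u v f)).card
          ≤ ∑ v : W, (D.through V t u v f).card := Finset.card_biUnion_le
        _ ≤ ∑ _v : W, 2 * (2 * Fintype.card W) ^ (expo L (D.wt V u) - 1) :=
            Finset.sum_le_sum fun v _ => hcard v
        _ = (2 * Fintype.card W) ^ (expo L (D.wt V u) - 1) * (2 * Fintype.card W) := by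
            rw [Finset.sum_const, Finset.card_univ, smul_eq_mul]
            ring
        _ = (2 * Fintype.card W) ^ (expo L (D.wt V u)) := by
            rw [← pow_succ]
            congr 1
            omega

open Classical in
/-- decomposition of a conjunction of nodes -/
lemma decomp_list [Fintype W] (V : Finset N) (L : ℕ) (hL : 1 ≤ L)
    (hatom : ∀ w, D.kind w = .atom → (V.filter (fun i => 1 ≤ D.mu w i)).card ≤ L)
    (us : List W) : ∃ P : Finset (List (W × Option W)),
      D.Good V L (fun i => (us.map (fun u => D.mu u i)).sum) (fun x => ∀ u ∈ us, D.val x u) P ∧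
      P.card ≤ (2 * Fintype.card W) ^ ((us.map (fun u => 2 * D.wt V u / L)).sum) := by
  induction us with
  | nil =>
    refine ⟨{[]}, ⟨?_, ?_, ?_, ?_⟩, ?_⟩
    · intro l hl i _
      rw [Finset.mem_singleton] at hl
      subst hl
      simp
    · intro l hl p hp
      rw [Finset.mem_singleton] at hl
      subst hl
      simp at hp
    · intro l hl x hx u hu
      simp at hu
    · intro x hx
      exact ⟨_, Finset.mem_singleton_self _, by simp⟩
    · simp
  | cons u us ih =>
    obtain ⟨P₁, hP₁, hc₁⟩ := D.decomp_node V L hL hatom _ u le_rfl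
    obtain ⟨P₂, hP₂, hc₂⟩ := ih
    have hM : 1 ≤ 2 * Fintype.card W := by
      have : 0 < Fintype.card W := Fintype.card_pos_iff.2 ⟨u⟩
      omega
    refine ⟨Finset.image₂ (fun l l' => l ++ l') P₁ P₂, ⟨?_, ?_, ?_, ?_⟩, ?_⟩
    · intro l hl i hi
      obtain ⟨l₁, h₁, l₂, h₂, rfl⟩ := Finset.mem_image₂.1 hl
      rw [List.countP_append, List.map_cons, List.sum_cons]
      exact Nat.add_le_add (hP₁.count l₁ h₁ i hi) (hP₂.count l₂ h₂ i hi)
    · intro l hl p hp
      obtain ⟨l₁, h₁, l₂, h₂, rfl⟩ := Finset.mem_image₂.1 hl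
      rcases List.mem_append.1 hp with hp | hp
      · exact hP₁.small l₁ h₁ p hp
      · exact hP₂.small l₂ h₂ p hp
    · intro l hl x hx v hv
      obtain ⟨l₁, h₁, l₂, h₂, rfl⟩ := Finset.mem_image₂.1 hl
      rcases List.mem_cons.1 hv with rfl | hv
      · exact hP₁.sound l₁ h₁ x fun p hp => hx p (List.mem_append_left _ hp)
      · exact hP₂.sound l₂ h₂ x (fun p hp => hx p (List.mem_append_right _ hp)) v hv
    · intro x hx
      obtain ⟨l₁, h₁, h₁'⟩ := hP₁.complete x (hx u (List.mem_cons_self))
      obtain ⟨l₂, h₂, h₂'⟩ := hP₂.complete x fun v hv => hx v (List.mem_cons_of_mem _ hv)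
      refine ⟨_, Finset.mem_image₂.2 ⟨l₁, h₁, l₂, h₂, rfl⟩, ?_⟩
      intro p hp
      rcases List.mem_append.1 hp with hp | hp
      · exact h₁' p hp
      · exact h₂' p hp
    · refine (Finset.card_image₂_le _ _ _).trans ((Nat.mul_le_mul hc₁ hc₂).trans ?_)
      rw [← pow_add, List.map_cons, List.sum_cons]
      exact Nat.pow_le_pow_right hM (Nat.add_le_add_right (expo_le _ _) _)

end Net

end Pool.Agent.Lib_MP_22d2c8_read
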