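import Pool.Agent.Lib_MP_22d2c8_lc.Circuit

/-!
# The number of reads of a circuit
-/

namespace Pool.Agent.Lib_MP_22d2c8_read

open Pool.Agent.Lib_MP_22d2c8_lc

/-- Numbers `mu` attached to the vertices, seen from above: the gates in `Z` count zero. -/
def cut {n s : ℕ} (Z : Finset (Fin s)) (mu : Fin n ⊕ Fin s → Bool → Fin n → ℕ) :
    Fin n ⊕ Fin s → Bool → Fin n → ℕ
  | .inl j => mu (.inl j)
  | .inr g => fun b i => if g ∈ Z then 0 else mu (.inr g) b i

/-- The counting rule at a gate `g`: a proof of the value `b` at `g` consists of proofs of values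
at all predecessors (for `and` with `b = true` and for `or` with `b = false`), where the numbers
add up, or of one of them (in the other cases), where the maximum counts. -/
def CountRule {n s : ℕ} (C : Circuit n s) (Z : Finset (Fin s))
    (mu : Fin n ⊕ Fin s → Bool → Fin n → ℕ) (g : Fin s) (b : Bool) : Prop :=
  match C.op g with
  | .not u => ∀ i, cut Z mu u (!b) i ≤ mu (.inr g) b i
  | .and u v => if b = true then ∀ i, ∑ w ∈ {u, v}, cut Z mu w true i ≤ mu (.inr g) true i
      else ∀ w ∈ ({u, v} : Finset (Fin n ⊕ Fin s)), ∀ i, cut Z mu w false i ≤ mu (.inr g) false i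
  | .or u v => if b = false then ∀ i, ∑ w ∈ {u, v}, cut Z mu w false i ≤ mu (.inr g) false i
      else ∀ w ∈ ({u, v} : Finset (Fin n ⊕ Fin s)), ∀ i, cut Z mu w true i ≤ mu (.inr g) true i

/-- The local rule at a gate `g`: its value depends on at most `q` of the inputs in `V`, and a
proof of the value `b` at `g` reads each input on which its value depends once. -/
def LocalRule {n s : ℕ} (C : Circuit n s) (V : Finset (Fin n)) (q : ℕ)
    (mu : Fin n ⊕ Fin s → Bool → Fin n → ℕ) (g : Fin s) (b : Bool) : Prop :=
  (C.dependsOn g ∩ V).card ≤ q ∧ ∀ i ∈ C.dependsOn g, 1 ≤ mu (.inr g) b i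

/-- The proofs that the output is true, in the circuit cut at the outputs of the gates in `Z`, read
the inputs in `V` at most `R` times, where gates that depend on at most `q` inputs in `V` may be
read as one leaf: there are numbers `mu u b i` that bound how often a proof of the value `b` at the
vertex `u` reads the input `i`, and the number for the value true at the output, plus the numbers
for all the gates in `Z`, summed over all `i` in `V`, is at most `R`. -/
def ReadLE {n s : ℕ} (C : Circuit n s) (Z : Finset (Fin s)) (q : ℕ) (V : Finset (Fin n))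
    (R : ℕ) : Prop :=
  ∃ mu : Fin n ⊕ Fin s → Bool → Fin n → ℕ,
    (∀ j b i, mu (.inl j) b i = if i = j then 1 else 0) ∧
    (∀ g b, CountRule C Z mu g b ∨ LocalRule C V q mu g b) ∧
    ∑ i ∈ V, (cut Z mu C.out true i +
      ∑ g ∈ Z, max (mu (.inr g) true i) (mu (.inr g) false i)) ≤ R

end Pool.Agent.Lib_MP_22d2c8_read
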