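import Pool.Agent.Lib_MP_22d2c8_tw.Field

/-!
# The box norm of the inverse function with arbitrary bits outside the blocks
-/

namespace Pool.Agent.Lib_MP_22d2c8_read

open Finset Pool.Agent.Lib_MP_22d2c8_tw

/-- the block variables `x` at the coordinates `e (j, a)`, and `ρ` elsewhere -/
noncomputable def ext {n p m : ℕ} (e : Fin p × Fin m → Fin n) (ρ : Fin n → Bool)
    (x : Fin p → Fin m → Bool) : Fin n → Bool :=
  Function.extend e (fun ja => x ja.1 ja.2) ρ

lemma ext_apply {n p m : ℕ} {e : Fin p × Fin m → Fin n} (he : Function.Injective e)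
    (ρ : Fin n → Bool) (x : Fin p → Fin m → Bool) (ja : Fin p × Fin m) :
    ext e ρ x (e ja) = x ja.1 ja.2 := by
  show Function.extend e (fun ja => x ja.1 ja.2) ρ (e ja) = x ja.1 ja.2
  exact he.extend_apply _ _ _

lemma ext_apply' {n p m : ℕ} {e : Fin p × Fin m → Fin n}
    (ρ : Fin n → Bool) (x : Fin p → Fin m → Bool) (i : Fin n) (hi : ¬ ∃ ja, e ja = i) :
    ext e ρ x i = ρ i := by
  show Function.extend e (fun ja => x ja.1 ja.2) ρ i = ρ i
  exact Function.extend_apply' _ _ _ hi

section

variable {K : Type} [Field K] [CharP K 2] [Algebra (ZMod 2) K] {Y : Type}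

lemma fDiff_ne' {q : ℕ} (ξ : Fin (q + 1) → Y → K) (x y : Fin (q + 1) → Y) (hξ : Indep ξ)
    (o : Y) (ho : ∀ t, t ≠ o → ∃ φ : K →ₗ[ZMod 2] ZMod 2,
      φ (ξ 0 t) ≠ 0 ∧ ∀ i, i ≠ 0 → ∀ s, φ (ξ i s) = 0)
    (hxy : ∀ j, x j ≠ y j) (hx : x 0 ≠ o) (hy : y 0 ≠ o) :
    fDiff (fList ξ x y) (fun b => b⁻¹) ≠ 0 := by
  have hn := fNum_ne ξ x y hξ hxy
  have hp : fProd (fList ξ x y) (0 + ((fList ξ x y).map Prod.fst).sum) ≠ 0 := by
    rw [zero_add, fList_sum, fList_succ]
    simp only [fProd]
    refine mul_ne_zero ?_ ?_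
    · intro h0
      obtain ⟨φ, h1, h2⟩ := ho (x 0) hx
      have h3 := span_vanish _ _ _ φ (fun i s => h2 i.succ (Fin.succ_ne_zero i) s) _
        (fProd_zero _ _ h0)
      apply h1
      rw [Fin.sum_univ_succ, map_add, map_sum] at h3
      simpa [h2] using h3
    · intro h0
      obtain ⟨φ, h1, h2⟩ := ho (y 0) hy
      have h3 := span_vanish _ _ _ φ (fun i s => h2 i.succ (Fin.succ_ne_zero i) s) _
        (fProd_zero _ _ h0)
      apply h1
      rw [Fin.sum_univ_succ, map_add, map_add, map_sum, map_add] at h3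
      have h4 : ∀ u v : ZMod 2, u + 0 + (u + v) = v := by decide
      have h5 : ∑ i : Fin q, φ (ξ i.succ (x i.succ)) = 0 :=
        Finset.sum_eq_zero fun i _ => h2 i.succ (Fin.succ_ne_zero i) _
      rw [h5, h4] at h3
      exact h3
  have := fDiff_inv (fList ξ x y) 0 hp
  simp only [add_zero] at this
  rw [this]
  exact div_ne_zero hn hp

end

theorem sum_box_le {n : ℕ} {K : Type} [Field K] [Algebra (ZMod 2) K]
    (b : Module.Basis (Fin n) (ZMod 2) K) (p m : ℕ) (e : Fin (p + 1) × Fin m → Fin n)
    (he : Function.Injective e) (ρ : Fin n → Bool) :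
    ∑ z : Fin n → Bool,
      box (p + 1) (fun x : Fin (p + 1) → (Fin m → Bool) =>
        chr b z ((∑ i, bit (ext e ρ x i) • b i)⁻¹)) ≤ 2 ^ n * (((p : ℝ) + 3) / 2 ^ m) := by
  classical
  have : CharP K 2 := charP_of_injective_algebraMap (algebraMap (ZMod 2) K).injective 2
  set ξ₀ : K := ∑ i ∈ univ.filter (fun i => ¬ ∃ ja, e ja = i), bit (ρ i) • b i with hξ₀
  set ξ : Fin (p + 1) → (Fin m → Bool) → K := fun j t =>
    (∑ a, bit (t a) • b (e (j, a))) + (if j = 0 then ξ₀ else 0) with hξdef
  have hF : ∀ z : Fin n → Bool,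
      (fun x : Fin (p + 1) → (Fin m → Bool) => chr b z ((∑ i, bit (ext e ρ x i) • b i)⁻¹)) =
      fun x => chr b z ((fun c : K => c⁻¹) (∑ j, ξ j (x j))) := by
    intro z
    funext x
    have h1 : ∑ i, bit (ext e ρ x i) • b i = ∑ j, ξ j (x j) := by
      have h2 : ∑ j, ξ j (x j) = (∑ j : Fin (p + 1), ∑ a, bit (x j a) • b (e (j, a))) + ξ₀ := by
        simp only [hξdef]
        rw [Finset.sum_add_distrib, Finset.sum_ite_eq' univ (0 : Fin (p + 1)) (fun _ => ξ₀),
          if_pos (Finset.mem_univ _)]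
      rw [h2, ← Fintype.sum_prod_type' (f := fun (j : Fin (p + 1)) (a : Fin m) =>
        bit (x j a) • b (e (j, a)))]
      rw [← Finset.sum_filter_not_add_sum_filter univ (fun i => ¬ ∃ ja, e ja = i)]
      congr 1
      · symm
        refine Finset.sum_bij (fun ja _ => e ja) ?_ ?_ ?_ ?_
        · intro ja _
          simp only [mem_filter, mem_univ, true_and, not_not]
          exact ⟨ja, rfl⟩
        · intro ja _ ja' _ h
          exact he h
        · intro i hi
          simp only [mem_filter, mem_univ, true_and, not_not] at hi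
          obtain ⟨ja, hja⟩ := hi
          exact ⟨ja, mem_univ _, hja⟩
        · intro ja _
          rw [ext_apply he]
      · rw [hξ₀]
        refine Finset.sum_congr rfl fun i hi => ?_
        rw [ext_apply' _ _ _ (mem_filter.1 hi).2]
    show chr b z ((∑ i, bit (ext e ρ x i) • b i)⁻¹) = chr b z ((∑ j, ξ j (x j))⁻¹)
    rw [h1]
  have hcoord0 : ∀ ja, b.coord (e ja) ξ₀ = 0 := by
    intro ja
    rw [hξ₀, map_sum]
    refine Finset.sum_eq_zero fun i hi => ?_
    have hi' := (mem_filter.1 hi).2
    rw [map_smul, Module.Basis.coord_apply, Module.Basis.repr_self]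
    rw [Finsupp.single_eq_of_ne]
    · simp
    · intro hc
      exact hi' ⟨ja, hc⟩
  have hcoord : ∀ (j : Fin (p + 1)) (a : Fin m) (i : Fin (p + 1)) (s : Fin m → Bool),
      b.coord (e (j, a)) (ξ i s) = if i = j then bit (s a) else 0 := by
    intro j a i s
    have h0 : b.coord (e (j, a)) (if i = 0 then ξ₀ else 0) = 0 := by
      split_ifs
      · exact hcoord0 _
      · exact map_zero _
    have h1 : b.coord (e (j, a)) (ξ i s) = b.coord (e (j, a)) (∑ a', bit (s a') • b (e (i, a'))) := by
      simp only [hξdef]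
      rw [map_add, h0, add_zero]
    rw [h1]
    simp only [map_sum, map_smul, Module.Basis.coord_apply, Module.Basis.repr_self]
    split_ifs with hij
    · subst hij
      rw [Finset.sum_eq_single a]
      · simp
      · intro a' _ ha'
        rw [Finsupp.single_eq_of_ne]
        · simp
        · intro hc
          have := he hc
          simp only [Prod.mk.injEq, true_and] at this
          first | exact ha' this | exact ha' this.symm
      · intro h; exact absurd (Finset.mem_univ a) h
    · refine Finset.sum_eq_zero fun a' _ => ?_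
      rw [Finsupp.single_eq_of_ne]
      · simp
      · intro hc
        have := he hc
        simp only [Prod.mk.injEq] at this
        first | exact hij this.1 | exact hij this.1.symm
  have hbit : ∀ u v : Bool, u ≠ v → bit u + bit v ≠ 0 := by decide
  have hInd : Indep ξ := by
    intro j t t' htt
    obtain ⟨a, ha⟩ := Function.ne_iff.mp htt
    refine ⟨b.coord (e (j, a)), ?_, ?_⟩
    · rw [map_add, hcoord, hcoord]
      simpa using hbit _ _ ha
    · intro i hi s
      rw [hcoord]
      simp [hi]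
  have h0 : ∀ t, t ≠ (fun _ => false) → ∃ φ : K →ₗ[ZMod 2] ZMod 2,
      φ (ξ 0 t) ≠ 0 ∧ ∀ i, i ≠ 0 → ∀ s, φ (ξ i s) = 0 := by
    intro t ht
    obtain ⟨a, ha⟩ := Function.ne_iff.mp ht
    refine ⟨b.coord (e (0, a)), ?_, ?_⟩
    · rw [hcoord, if_pos rfl]
      have : t a = true := by simpa using ha
      rw [this]
      decide
    · intro i hi s
      rw [hcoord]
      simp [hi]
  -- the number of bad pairs
  have hY : Fintype.card (Fin m → Bool) = 2 ^ m := by simp
  set bad : Finset ((Fin (p + 1) → (Fin m → Bool)) × (Fin (p + 1) → (Fin m → Bool))) :=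
    univ.filter fun xy => fDiff (fList ξ xy.1 xy.2) (fun c : K => c⁻¹) = 0 with hbad
  have hbadsub : bad ⊆
      ((univ : Finset (Fin (p + 1))).biUnion fun j => univ.filter fun xy => xy.1 j = xy.2 j) ∪
      ((univ.filter fun xy => xy.1 0 = fun _ => false) ∪
        (univ.filter fun xy => xy.2 0 = fun _ => false)) := by
    rintro ⟨x, y⟩ hxy
    simp only [hbad, Finset.mem_filter, Finset.mem_univ, true_and] at hxy
    by_contra hc
    simp only [Finset.mem_union, Finset.mem_biUnion, Finset.mem_filter, Finset.mem_univ,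
      true_and, not_or, not_exists] at hc
    exact fDiff_ne' ξ x y hInd _ h0 hc.1 hc.2.1 hc.2.2 hxy
  have c1 : ∀ j : Fin (p + 1),
      ((univ : Finset ((Fin (p + 1) → (Fin m → Bool)) × (Fin (p + 1) → (Fin m → Bool)))).filter
        fun xy => xy.1 j = xy.2 j).card ≤
      Fintype.card (Fin m → Bool) ^ (p + 1) * Fintype.card (Fin m → Bool) ^ p := by
    intro j
    have hsub : ((univ : Finset ((Fin (p + 1) → (Fin m → Bool)) × (Fin (p + 1) → (Fin m → Bool)))).filter
        fun xy => xy.1 j = xy.2 j) ⊆ (univ : Finset (Fin (p + 1) → (Fin m → Bool))).biUnion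
          fun x => (univ.filter fun y : Fin (p + 1) → (Fin m → Bool) => y j = x j).image (fun y => (x, y)) := by
      rintro ⟨x, y⟩ h
      simp only [Finset.mem_filter, Finset.mem_univ, true_and] at h
      simp only [Finset.mem_biUnion, Finset.mem_image, Finset.mem_filter, Finset.mem_univ,
        true_and]
      exact ⟨x, y, h.symm, rfl⟩
    refine (Finset.card_le_card hsub).trans (Finset.card_biUnion_le.trans ?_)
    have : ∀ x ∈ (univ : Finset (Fin (p + 1) → (Fin m → Bool))),
        ((univ.filter fun y : Fin (p + 1) → (Fin m → Bool) => y j = x j).image (fun y => (x, y))).card ≤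
          Fintype.card (Fin m → Bool) ^ p := by
      intro x _
      exact Finset.card_image_le.trans (card_fix p j (x j)).le
    refine (Finset.sum_le_sum this).trans ?_
    simp
  have c2 : ((univ : Finset ((Fin (p + 1) → (Fin m → Bool)) × (Fin (p + 1) → (Fin m → Bool)))).filter
        fun xy => xy.1 0 = fun _ => false).card ≤
      Fintype.card (Fin m → Bool) ^ (p + 1) * Fintype.card (Fin m → Bool) ^ p := by
    have hsub : ((univ : Finset ((Fin (p + 1) → (Fin m → Bool)) × (Fin (p + 1) → (Fin m → Bool)))).filter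
        fun xy => xy.1 0 = fun _ => false) ⊆
        (univ.filter fun y : Fin (p + 1) → (Fin m → Bool) => y 0 = fun _ => false) ×ˢ univ := by
      rintro ⟨x, y⟩ h
      simp only [Finset.mem_filter, Finset.mem_univ, true_and] at h
      simp [h]
    refine (Finset.card_le_card hsub).trans ?_
    rw [Finset.card_product, card_fix]
    simp [mul_comm]
  have c3 : ((univ : Finset ((Fin (p + 1) → (Fin m → Bool)) × (Fin (p + 1) → (Fin m → Bool)))).filter
        fun xy => xy.2 0 = fun _ => false).card ≤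
      Fintype.card (Fin m → Bool) ^ (p + 1) * Fintype.card (Fin m → Bool) ^ p := by
    have hsub : ((univ : Finset ((Fin (p + 1) → (Fin m → Bool)) × (Fin (p + 1) → (Fin m → Bool)))).filter
        fun xy => xy.2 0 = fun _ => false) ⊆
        univ ×ˢ (univ.filter fun y : Fin (p + 1) → (Fin m → Bool) => y 0 = fun _ => false) := by
      rintro ⟨x, y⟩ h
      simp only [Finset.mem_filter, Finset.mem_univ, true_and] at h
      simp [h]
    refine (Finset.card_le_card hsub).trans ?_
    rw [Finset.card_product, card_fix]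
    simp
  have hcard : bad.card ≤ (p + 3) * (Fintype.card (Fin m → Bool) ^ (p + 1) * Fintype.card (Fin m → Bool) ^ p) := by
    refine (Finset.card_le_card hbadsub).trans ?_
    refine (Finset.card_union_le _ _).trans ?_
    have hA : ((univ : Finset (Fin (p + 1))).biUnion fun j =>
        (univ : Finset ((Fin (p + 1) → (Fin m → Bool)) × (Fin (p + 1) → (Fin m → Bool)))).filter
          fun xy => xy.1 j = xy.2 j).card ≤
        (p + 1) * (Fintype.card (Fin m → Bool) ^ (p + 1) * Fintype.card (Fin m → Bool) ^ p) := by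
      refine Finset.card_biUnion_le.trans ((Finset.sum_le_sum fun j _ => c1 j).trans ?_)
      simp
    have hB := (Finset.card_union_le
      ((univ : Finset ((Fin (p + 1) → (Fin m → Bool)) × (Fin (p + 1) → (Fin m → Bool)))).filter
        fun xy => xy.1 0 = fun _ => false)
      ((univ : Finset ((Fin (p + 1) → (Fin m → Bool)) × (Fin (p + 1) → (Fin m → Bool)))).filter
        fun xy => xy.2 0 = fun _ => false)).trans (Nat.add_le_add c2 c3)
    refine (Nat.add_le_add hA hB).trans (le_of_eq ?_)
    ring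
  -- averaging
  have hsum : ∑ z : Fin n → Bool, box (p + 1)
      (fun x : Fin (p + 1) → (Fin m → Bool) => chr b z ((∑ i, bit (ext e ρ x i) • b i)⁻¹)) =
      (2 : ℝ) ^ n * bad.card / (Fintype.card (Fin m → Bool) : ℝ) ^ (2 * (p + 1)) := by
    have : ∀ z : Fin n → Bool, box (p + 1)
      (fun x : Fin (p + 1) → (Fin m → Bool) => chr b z ((∑ i, bit (ext e ρ x i) • b i)⁻¹)) =
      (∑ x : Fin (p + 1) → (Fin m → Bool), ∑ y : Fin (p + 1) → (Fin m → Bool),
        chr b z (fDiff (fList ξ x y) (fun c : K => c⁻¹))) /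
        (Fintype.card (Fin m → Bool) : ℝ) ^ (2 * (p + 1)) := by
      intro z
      rw [hF z]
      exact box_eq (chr b z) (chr_add b z) (p + 1) ξ (fun c : K => c⁻¹)
    rw [Finset.sum_congr rfl fun z _ => this z, ← Finset.sum_div]
    congr 1
    rw [Finset.sum_comm]
    have h2 : ∀ x : Fin (p + 1) → (Fin m → Bool), ∑ z : Fin n → Bool, ∑ y : Fin (p + 1) → (Fin m → Bool),
        chr b z (fDiff (fList ξ x y) (fun c : K => c⁻¹)) =
        ∑ y : Fin (p + 1) → (Fin m → Bool),
          if fDiff (fList ξ x y) (fun c : K => c⁻¹) = 0 then (2 : ℝ) ^ n else 0 := by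
      intro x
      rw [Finset.sum_comm]
      exact Finset.sum_congr rfl fun y _ => chr_sum b _
    rw [Finset.sum_congr rfl fun x _ => h2 x]
    rw [← Fintype.sum_prod_type' (f := fun (x y : Fin (p + 1) → (Fin m → Bool)) =>
      if fDiff (fList ξ x y) (fun c : K => c⁻¹) = 0 then (2 : ℝ) ^ n else 0)]
    rw [← Finset.sum_filter, Finset.sum_const, nsmul_eq_mul, mul_comm]
  rw [hsum, mul_div_assoc]
  refine mul_le_mul_of_nonneg_left ?_ (by positivity)
  have h7 : (bad.card : ℝ) ≤ ((p : ℝ) + 3) *
      ((Fintype.card (Fin m → Bool) : ℝ) ^ (p + 1) * (Fintype.card (Fin m → Bool) : ℝ) ^ p) := by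
    exact_mod_cast hcard
  rw [hY] at h7 ⊢
  push_cast at h7 ⊢
  rw [div_le_div_iff₀ (by positivity) (by positivity)]
  calc (bad.card : ℝ) * 2 ^ m ≤ (((p : ℝ) + 3) * (((2 : ℝ) ^ m) ^ (p + 1) * ((2 : ℝ) ^ m) ^ p)) *
        2 ^ m := by
        exact mul_le_mul_of_nonneg_right h7 (by positivity)
    _ = ((p : ℝ) + 3) * ((2 : ℝ) ^ m) ^ (2 * (p + 1)) := by ring

end Pool.Agent.Lib_MP_22d2c8_read
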