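import Pool.Agent.Lib_MP_22d2c8_read.InvProduct

/-!
# Colouring the pieces of a product
-/

namespace Pool.Agent.Lib_MP_22d2c8_read

open Finset Pool.Agent.Lib_MP_22d2c8_tw

lemma card_filter_get {α : Type} (p : α → Bool) (l : List α) :
    (Finset.univ.filter (fun t : Fin l.length => p (l.get t) = true)).card = l.countP p := by
  induction l with
  | nil => simp
  | cons a l ih =>
    rw [List.countP_cons, ← ih, Finset.card_filter, Finset.card_filter]
    refine (Fin.sum_univ_succ (n := l.length)
      (fun t : Fin (l.length + 1) => if p ((a :: l).get t) = true then 1 else 0)).trans ?_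
    rw [add_comm]
    rfl

open Classical in
theorem inv_product {n : ℕ} {K : Type} [Field K] [Algebra (ZMod 2) K]
    (b : Module.Basis (Fin n) (ZMod 2) K) {W : Type} (D : Net (Fin (n + n)) W)
    (V : Finset (Fin n)) (p t L m : ℕ) (hp : 1 ≤ p)
    (hL : 4 * (p + 1) * ((p + 1) * t) * 16 ^ t * L < V.card)
    (hm : 2 * (p + 1) * 4 ^ t * m ≤ V.card) (l : List (W × Option W))
    (hcount : ∑ i ∈ V, l.countP (fun q => decide (D.Var q (Fin.castAdd n i))) ≤
      (p + 1) * t * V.card)
    (hsmall : ∀ q ∈ l, (V.filter (fun i => D.Var q (Fin.castAdd n i))).card ≤ L)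
    (hsound : ∀ y, (∀ q ∈ l, D.Holds y q) → invForm b (y ∘ finSumFinEquiv) = true)
    (E : Finset (Fin (n + n) → Bool)) (hE : ∀ y ∈ E, ∀ q ∈ l, D.Holds y q) :
    (E.card : ℝ) ^ (2 ^ (p + 1)) * 2 ^ m ≤
      ((p : ℝ) + 3) * ((4 : ℝ) ^ n) ^ (2 ^ (p + 1)) := by
  have hV : 0 < V.card := by omega
  set v := V.card with hv
  set k := (p + 1) * t with hk
  let Dd : V → Finset (Fin l.length) := fun i =>
    univ.filter (fun r => D.Var (l.get r) (Fin.castAdd n i.1))
  have hDd : ∀ i : V, (Dd i).card = l.countP (fun q => decide (D.Var q (Fin.castAdd n i.1))) := by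
    intro i
    rw [← card_filter_get]
    congr 1
    ext r
    simp only [Dd, mem_filter, mem_univ, true_and, decide_eq_true_eq]
  have hcardV : Fintype.card V = v := Fintype.card_coe V
  have hR : ∑ i, (Dd i).card ≤ k * v := by
    refine le_trans (le_of_eq ?_) hcount
    rw [Finset.sum_congr rfl fun i _ => hDd i]
    exact Finset.sum_coe_sort V (fun i => l.countP (fun q => decide (D.Var q (Fin.castAdd n i))))
  have hΔ : ∀ r, (univ.filter fun i => r ∈ Dd i).card ≤ L := by
    intro r
    refine le_trans ?_ (hsmall _ (List.get_mem l r))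
    refine Finset.card_le_card_of_injOn (fun i => i.1) ?_ ?_
    · intro i hi
      have hi' : i ∈ univ.filter fun i => r ∈ Dd i := hi
      rw [mem_filter] at hi'
      have h1 : r ∈ Dd i := hi'.2
      simp only [Dd, mem_filter, mem_univ, true_and] at h1
      exact mem_coe.2 (mem_filter.2 ⟨i.2, h1⟩)
    · intro i _ j _ hij
      exact Subtype.ext hij
  have hvR : (0 : ℝ) < v := by exact_mod_cast hV
  set μ : ℝ := (v : ℝ) / 4 ^ t with hμ
  have hμ0 : 0 < μ := by positivity
  obtain ⟨χ, hχ⟩ := exists_colouring Dd (p + 1) (by omega) (k * v) L hR hΔ μ hμ0.le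
    (by
      have h := mean_lower (fun i : V => (Dd i).card) (p + 1) (by omega) (k * v) hR
        (by rw [hcardV]; exact hV)
      rw [hcardV] at h
      refine le_trans (le_of_eq ?_) h
      rw [hμ, div_eq_mul_inv]
      congr 1
      have h1 : (2 * ((k * v : ℕ) : ℝ) / ((p + 1 : ℕ) * v)) = ((2 * t : ℕ) : ℝ) := by
        rw [hk]
        push_cast
        have : ((p : ℝ) + 1) ≠ 0 := by positivity
        field_simp
      rw [h1, Real.rpow_neg (by norm_num), Real.rpow_natCast, pow_mul]
      norm_num)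
    (by
      rw [hμ, div_pow, lt_div_iff₀ (by positivity)]
      have h1 : ((4 * (p + 1) * k * 16 ^ t * L : ℕ) : ℝ) < (v : ℝ) := by exact_mod_cast hL
      push_cast at h1 ⊢
      have h16 : ((4 : ℝ) ^ t) ^ 2 = 16 ^ t := by
        rw [← pow_mul, mul_comm t 2, pow_mul]
        norm_num
      rw [h16]
      calc 4 * ((p : ℝ) + 1) * L * (k * v) * 16 ^ t
          = (4 * ((p : ℝ) + 1) * k * 16 ^ t * L) * v := by ring
        _ < v * v := mul_lt_mul_of_pos_right h1 hvR
        _ = (v : ℝ) ^ 2 := by ring)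
  let G : Fin (p + 1) → Finset V := fun j => univ.filter fun i => ∀ r ∈ Dd i, χ r ≠ j
  have hG : ∀ j, (p + 1) * m ≤ (G j).card := by
    intro j
    have h1 : μ / 2 ≤ ((G j).card : ℝ) := by
      have := hχ j
      convert this
    have h2 : (((p + 1) * m : ℕ) : ℝ) ≤ μ / 2 := by
      rw [hμ, div_div, le_div_iff₀ (by positivity)]
      have h3 : ((2 * (p + 1) * 4 ^ t * m : ℕ) : ℝ) ≤ (v : ℝ) := by exact_mod_cast hm
      push_cast at h3 ⊢
      linarith
    exact_mod_cast h2.trans h1
  obtain ⟨e, he, heG⟩ := exists_disjoint_sub (p + 1) m G hG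
  refine product_small' b p m (fun ja => (e ja).1)
    (fun ja ja' h => he (Subtype.ext h))
    (fun j y => ∀ r : Fin l.length, χ r = j → D.Holds y (l.get r))
    (by
      intro y hy
      refine hsound y fun q hq => ?_
      obtain ⟨r, rfl⟩ := List.get_of_mem hq
      exact hy (χ r) r rfl)
    (by
      intro j y y' hyy hj r hr
      refine D.holds_dep (hj r hr) fun u hu => ?_
      refine hyy u fun a hua => ?_
      have h1 := heG (j, a)
      have h2 : ∀ r ∈ Dd (e (j, a)), χ r ≠ j := (mem_filter.1 h1).2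
      refine h2 r ?_ hr
      simp only [Dd, mem_filter, mem_univ, true_and]
      rw [← hua]
      exact hu) E (fun y hy j r _ => hE y hy _ (List.get_mem l r))

end Pool.Agent.Lib_MP_22d2c8_read
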