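import Pool.Agent.Lib_MP_22d2c8_read.Sound
import Pool.Agent.Lib_MP_22d2c8_read.InvNet

/-!
# The lower bound
-/

namespace Pool.Agent.Lib_MP_22d2c8_read

open Finset Pool.Agent.Lib_MP_22d2c8_lc

lemma div_sum_list {α : Type} (f : α → ℕ) (L : ℕ) (us : List α) :
    (us.map (fun u => 2 * f u / L)).sum ≤ 2 * (us.map f).sum / L := by
  induction us with
  | nil => simp
  | cons u us ih =>
    simp only [List.map_cons, List.sum_cons]
    calc 2 * f u / L + (us.map (fun u => 2 * f u / L)).sum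
        ≤ 2 * f u / L + 2 * (us.map f).sum / L := Nat.add_le_add_left ih _
      _ ≤ (2 * f u + 2 * (us.map f).sum) / L := Nat.div_add_div_le_add_div
      _ = 2 * (f u + (us.map f).sum) / L := by rw [mul_add]

lemma wt_sum_list {N W : Type} (D : Net N W) (V : Finset N) (us : List W) :
    (us.map (D.wt V)).sum = ∑ i ∈ V, (us.map (fun u => D.mu u i)).sum := by
  induction us with
  | nil => simp
  | cons u us ih =>
    simp only [List.map_cons, List.sum_cons, Finset.sum_add_distrib, ih]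
    rfl

/-- the inverse function is often true -/
lemma inv_density {n : ℕ} (hn : 1 ≤ n) {K : Type} [Field K] [Algebra (ZMod 2) K]
    (b : Module.Basis (Fin n) (ZMod 2) K) :
    4 ^ n ≤ 4 * (univ.filter (fun y : Fin (n + n) → Bool =>
      Lib_MP_22d2c8_tw.invForm b (y ∘ finSumFinEquiv) = true)).card := by
  classical
  set T := (univ.filter (fun y : Fin (n + n) → Bool =>
      Lib_MP_22d2c8_tw.invForm b (y ∘ finSumFinEquiv) = true)).card with hT
  have h1 : ∑ y : Fin (n + n) → Bool,
      Lib_MP_22d2c8_tw.sgn (Lib_MP_22d2c8_tw.invForm b (y ∘ finSumFinEquiv)) =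
      (4 : ℝ) ^ n - 2 * T := by
    have h2 : ∀ y : Fin (n + n) → Bool,
        Lib_MP_22d2c8_tw.sgn (Lib_MP_22d2c8_tw.invForm b (y ∘ finSumFinEquiv)) =
        1 - 2 * (if Lib_MP_22d2c8_tw.invForm b (y ∘ finSumFinEquiv) = true then (1 : ℝ) else 0) := by
      intro y
      cases Lib_MP_22d2c8_tw.invForm b (y ∘ finSumFinEquiv)
      · simp [Lib_MP_22d2c8_tw.sgn]
      · simp [Lib_MP_22d2c8_tw.sgn]
        norm_num
    rw [Finset.sum_congr rfl fun y _ => h2 y, Finset.sum_sub_distrib, ← Finset.mul_sum,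
      Finset.sum_boole, ← hT]
    congr 1
    simp only [Finset.sum_const, Finset.card_univ, nsmul_eq_mul, mul_one]
    simp only [Fintype.card_fun, Fintype.card_bool, Fintype.card_fin]
    push_cast
    rw [pow_add, ← mul_pow]
    norm_num
  have h3 : ∑ y : Fin (n + n) → Bool,
      Lib_MP_22d2c8_tw.sgn (Lib_MP_22d2c8_tw.invForm b (y ∘ finSumFinEquiv)) ≤ (2 : ℝ) ^ n := by
    have h4 : ∑ y : Fin (n + n) → Bool,
        Lib_MP_22d2c8_tw.sgn (Lib_MP_22d2c8_tw.invForm b (y ∘ finSumFinEquiv)) =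
        ∑ w : (Fin n → Bool) × (Fin n → Bool), Lib_MP_22d2c8_tw.sgn
          (Lib_MP_22d2c8_tw.invForm b (Fin.append w.1 w.2 ∘ finSumFinEquiv)) :=
      (Equiv.sum_comp (Fin.appendEquiv n n) (fun y : Fin (n + n) → Bool =>
        Lib_MP_22d2c8_tw.sgn (Lib_MP_22d2c8_tw.invForm b (y ∘ finSumFinEquiv)))).symm
    rw [h4, Fintype.sum_prod_type]
    have h5 : ∀ x : Fin n → Bool, ∑ z : Fin n → Bool, Lib_MP_22d2c8_tw.sgn
        (Lib_MP_22d2c8_tw.invForm b (Fin.append x z ∘ finSumFinEquiv)) =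
        if x = fun _ => false then (2 : ℝ) ^ n else 0 := by
      intro x
      rw [Finset.sum_congr rfl fun z _ => sgn_invForm b x z, Lib_MP_22d2c8_tw.chr_sum]
      have h6 : (∑ i, Lib_MP_22d2c8_tw.bit (x i) • b i)⁻¹ = 0 ↔ x = fun _ => false := by
        rw [inv_eq_zero]
        constructor
        · intro h
          funext i
          have h7 : b.repr (∑ i, Lib_MP_22d2c8_tw.bit (x i) • b i) i =
              Lib_MP_22d2c8_tw.bit (x i) := by
            rw [Module.Basis.repr_sum_self]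
          rw [h, map_zero, Finsupp.zero_apply] at h7
          cases hx : x i
          · rfl
          · rw [hx] at h7
            simp [Lib_MP_22d2c8_tw.bit] at h7
        · rintro rfl
          simp [Lib_MP_22d2c8_tw.bit]
      by_cases hx : x = fun _ => false
      · rw [if_pos (h6.2 hx), if_pos hx]
      · rw [if_neg (fun h => hx (h6.1 h)), if_neg hx]
    rw [Finset.sum_congr rfl fun x _ => h5 x]
    simp
  rw [h1] at h3
  have h4 : (2 : ℝ) * 2 ^ n ≤ 4 ^ n := by
    have h5 : (2 : ℝ) ≤ 2 ^ n := by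
      calc (2 : ℝ) = 2 ^ 1 := by norm_num
        _ ≤ 2 ^ n := pow_le_pow_right₀ (by norm_num) hn
    calc (2 : ℝ) * 2 ^ n ≤ 2 ^ n * 2 ^ n := mul_le_mul_of_nonneg_right h5 (by positivity)
      _ = 4 ^ n := by rw [← mul_pow]; norm_num
  have h5 : ((4 ^ n : ℕ) : ℝ) ≤ ((4 * T : ℕ) : ℝ) := by
    push_cast
    linarith
  exact_mod_cast h5

open Classical in
theorem inv_reads {n s p t q R : ℕ} (hp : 1 ≤ p) (ht : 1 ≤ t)
    {K : Type} [Field K] [Algebra (ZMod 2) K] (b : Module.Basis (Fin n) (ZMod 2) K)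
    (C : Circuit (n + n) s)
    (hC : C.Computes (fun y => Lib_MP_22d2c8_tw.invForm b (y ∘ finSumFinEquiv)))
    (Z : Finset (Fin s)) (V : Finset (Fin n))
    (hread : ReadLE C Z q (V.image (Fin.castAdd n)) R) (hRk : R ≤ (p + 1) * t * V.card) :
    V.card ≤ 2 ^ (p + 2) * (p + 1) * 4 ^ t *
      (Z.card + 16 * (p + 1) ^ 3 * t ^ 2 * 16 ^ t * (q + Nat.log 2 C.size + 5)) := by
  obtain ⟨rk, hrk⟩ := C.acyclic
  set V' := V.image (Fin.castAdd n) with hV'
  obtain ⟨mu, hmu, hrule, hmul⟩ := hread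
  choose a ha1 ha2 ha3' using hC
  have ha3 : ∀ x, a x C.out = Lib_MP_22d2c8_tw.invForm b (x ∘ finSumFinEquiv) := ha3'
  clear ha3'
  have ha : Real C a := ⟨ha1, ha2⟩
  set v := V.card with hv
  set ℓ := Nat.log 2 C.size with hℓ
  set k := (p + 1) * t with hk
  set Dn := 4 * (p + 1) * k * 16 ^ t with hDn
  set X := 4 * k * Dn with hX
  have hXeq : 16 * (p + 1) ^ 3 * t ^ 2 * 16 ^ t = X := by
    rw [hX, hDn, hk]
    ring
  rw [hXeq]
  by_contra hcon
  push Not at hcon
  set Q := 2 * (p + 1) * 4 ^ t with hQ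
  have hQeq : 2 ^ (p + 2) * (p + 1) * 4 ^ t = Q * 2 ^ (p + 1) := by
    rw [hQ]
    ring
  rw [hQeq] at hcon
  have hk1 : 1 ≤ k := Nat.mul_le_mul (by omega : 1 ≤ p + 1) ht
  have hDn1 : 1 ≤ Dn := by
    rw [hDn]
    have h1 : 1 ≤ 16 ^ t := Nat.one_le_pow _ _ (by norm_num)
    have h2 : 1 ≤ 4 * (p + 1) := by omega
    exact Nat.mul_le_mul (Nat.mul_le_mul h2 hk1) h1
  have hXD : Dn ≤ X := by
    rw [hX]
    calc Dn = 1 * Dn := (one_mul _).symm
      _ ≤ 4 * k * Dn := Nat.mul_le_mul_right _ (by omega)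
  have hQ1 : 1 ≤ Q := by
    rw [hQ]
    have h1 : 1 ≤ 4 ^ t := Nat.one_le_pow _ _ (by norm_num)
    exact Nat.mul_le_mul (by omega : 1 ≤ 2 * (p + 1)) h1
  have h2P1 : 1 ≤ 2 ^ (p + 1) := Nat.one_le_pow _ _ (by norm_num)
  have hbigv : Z.card + X * (q + ℓ + 5) < v := by
    refine lt_of_le_of_lt ?_ hcon
    calc Z.card + X * (q + ℓ + 5) = 1 * (Z.card + X * (q + ℓ + 5)) := (one_mul _).symm
      _ ≤ _ := Nat.mul_le_mul_right _ (Nat.mul_le_mul hQ1 h2P1)
  have hn : 1 ≤ n := by
    have h1 : V.card ≤ n := (Finset.card_le_univ V).trans_eq (Fintype.card_fin _)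
    omega
  have hDv : Dn * (q + 2) < v := by
    refine lt_of_le_of_lt ?_ hbigv
    calc Dn * (q + 2) ≤ X * (q + ℓ + 5) := Nat.mul_le_mul hXD (by omega)
      _ ≤ _ := Nat.le_add_left _ _
  set L := (v - 1) / Dn with hLdef
  have hL2 : q + 2 ≤ L := by
    rw [hLdef, Nat.le_div_iff_mul_le (by omega)]
    have : (q + 2) * Dn = Dn * (q + 2) := mul_comm _ _
    omega
  have hL1 : 1 ≤ L := by omega
  have hqL : q ≤ L := by omega
  have hDL : Dn * L < v := by
    have h1 : Dn * L ≤ v - 1 := Nat.mul_div_le _ _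
    omega
  have hvL : v ≤ 2 * Dn * L := by
    have h1 := Nat.div_add_mod (v - 1) Dn
    have h2 := Nat.mod_lt (v - 1) (by omega : Dn > 0)
    rw [← hLdef] at h1
    have h3 : Dn * 1 ≤ Dn * L := Nat.mul_le_mul_left _ hL1
    have h4 : 2 * Dn * L = Dn * L + Dn * L := by ring
    omega
  set m := v / Q with hmdef
  have hm : Q * m ≤ v := Nat.mul_div_le _ _
  have hm' : v < Q * (m + 1) := by
    have h1 := Nat.div_add_mod v Q
    have h2 := Nat.mod_lt v (by omega : Q > 0)
    rw [← hmdef] at h1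
    rw [mul_add, mul_one]
    omega
  set M := 2 * Fintype.card (Nd (n + n) s) with hM
  have hM1 : 1 ≤ M := by
    have : 0 < Fintype.card (Nd (n + n) s) := Fintype.card_pos_iff.2 ⟨.inr true⟩
    omega
  have hinj : Function.Injective (Fin.castAdd n : Fin n → Fin (n + n)) := Fin.castAdd_injective n n
  have hcV' : V'.card = v := Finset.card_image_of_injective _ hinj
  set G : ℝ := ((p : ℝ) + 3) * ((4 : ℝ) ^ n) ^ (2 ^ (p + 1)) with hG
  -- for every guess, few products
  have hguess : ∀ Y : Finset (Fin s), ∃ P : Finset (List (Nd (n + n) s × Option (Nd (n + n) s))),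
      P.card ≤ M ^ X ∧
      (∀ l ∈ P, ((Finset.univ.filter (fun x : Fin (n + n) → Bool =>
        ∀ p ∈ l, (net C V' Z Y q mu hmu hrule rk hrk a ha).Holds x p)).card : ℝ) ^ (2 ^ (p + 1)) *
          2 ^ m ≤ G) ∧
      (∀ x, Lib_MP_22d2c8_tw.invForm b (x ∘ finSumFinEquiv) = true →
        (∀ g ∈ Z, (g ∈ Y ↔ a x (.inr g) = true)) → ∃ l ∈ P,
        ∀ p ∈ l, (net C V' Z Y q mu hmu hrule rk hrk a ha).Holds x p) := by
    intro Y
    set D := net C V' Z Y q mu hmu hrule rk hrk a ha with hD
    set us : List (Nd (n + n) s) := cn Z Y C.out true ::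
      Z.toList.map (fun g => (.inl (.inr g, decide (g ∈ Y)) : Nd (n + n) s)) with hus
    have hatom : ∀ w, D.kind w = .atom → (V'.filter (fun i => 1 ≤ D.mu w i)).card ≤ L := by
      intro w hw
      rcases w with ⟨j | g, b'⟩ | c
      · refine le_trans (Finset.card_le_one.2 ?_) hL1
        intro i hi i' hi'
        have h1 : 1 ≤ (if i = j then 1 else 0) := (Finset.mem_filter.1 hi).2
        have h2 : 1 ≤ (if i' = j then 1 else 0) := (Finset.mem_filter.1 hi').2
        by_cases h3 : i = j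
        · by_cases h4 : i' = j
          · rw [h3, h4]
          · rw [if_neg h4] at h2
            omega
        · rw [if_neg h3] at h1
          omega
      · refine le_trans ?_ hqL
        have hl : LocalRule C V' q mu g b' := ndKind_atom hw
        refine le_trans (Finset.card_le_card ?_) hl.1
        intro i hi
        have h1 : 1 ≤ ndMu C V' q mu (.inl (.inr g, b')) i := (Finset.mem_filter.1 hi).2
        simp only [ndMu, if_pos hl] at h1
        refine Finset.mem_inter.2 ⟨?_, (Finset.mem_filter.1 hi).1⟩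
        by_contra h2
        rw [if_neg h2] at h1
        omega
      · rw [Finset.card_eq_zero.2]
        · exact Nat.zero_le _
        · rw [Finset.filter_eq_empty_iff]
          intro i _ h
          have h1 : 1 ≤ 0 := h
          omega
    obtain ⟨P, hP, hPc⟩ := D.decomp_list V' L hL1 hatom us
    -- the multiplicities
    have hmult : ∑ i ∈ V', (us.map (fun u => D.mu u i)).sum ≤ k * v := by
      refine le_trans (Finset.sum_le_sum fun i _ => ?_) (hmul.trans hRk)
      rw [hus, List.map_cons, List.sum_cons, List.map_map]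
      refine Nat.add_le_add (ndMu_cn_le hmu _ _ _) ?_
      have h1 : (Z.toList.map ((fun u => D.mu u i) ∘
          fun g => (.inl (.inr g, decide (g ∈ Y)) : Nd (n + n) s))).sum =
          ∑ g ∈ Z, D.mu (.inl (.inr g, decide (g ∈ Y))) i := Finset.sum_map_toList _ _
      rw [h1]
      refine Finset.sum_le_sum fun g _ => ?_
      have h2 : D.mu (.inl (.inr g, decide (g ∈ Y))) i ≤ mu (.inr g) (decide (g ∈ Y)) i :=
        ndMu_gate_le g _ i
      refine h2.trans ?_
      cases decide (g ∈ Y)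
      · exact le_max_right _ _
      · exact le_max_left _ _
    have hsnd : ∀ l ∈ P, ∀ x, (∀ p ∈ l, D.Holds x p) →
        Lib_MP_22d2c8_tw.invForm b (x ∘ finSumFinEquiv) = true := by
      intro l hl x hx
      have h1 := hP.sound l hl x hx
      rw [← ha3 x]
      refine sound_cn (V := V') (q := q) (mu := mu) (Z := Z) (Y := Y) rk hrk a ha x ?_ C.out true ?_
      · intro g hg
        refine h1 _ (List.mem_cons_of_mem _ (List.mem_map.2 ⟨g, Finset.mem_toList.2 hg, rfl⟩))
      · exact h1 _ List.mem_cons_self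
    refine ⟨P, ?_, ?_, ?_⟩
    · refine hPc.trans (Nat.pow_le_pow_right hM1 ?_)
      refine (div_sum_list (D.wt V') L us).trans ?_
      rw [wt_sum_list]
      refine Nat.div_le_of_le_mul ?_
      calc 2 * ∑ i ∈ V', (us.map (fun u => D.mu u i)).sum ≤ 2 * (k * v) :=
            Nat.mul_le_mul_left _ hmult
        _ ≤ 2 * (k * (2 * Dn * L)) := Nat.mul_le_mul_left _ (Nat.mul_le_mul_left _ hvL)
        _ = L * X := by rw [hX]; ring
    · intro l hl
      have hDL' : 4 * (p + 1) * ((p + 1) * t) * 16 ^ t * L < V.card := by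
        rw [← hk, ← hDn, ← hv]
        exact hDL
      have hm'' : 2 * (p + 1) * 4 ^ t * m ≤ V.card := by
        rw [← hQ, ← hv]
        exact hm
      refine inv_product b D V p t L m hp hDL' hm'' l ?_ ?_ (hsnd l hl) _
        (fun x hx => (Finset.mem_filter.1 hx).2)
      · have h0 : ∑ i ∈ V, l.countP (fun w => decide (D.Var w (Fin.castAdd n i))) =
            ∑ i ∈ V', l.countP (fun w => decide (D.Var w i)) := by
          rw [hV', Finset.sum_image fun i _ j _ h => hinj h]
        refine le_trans (le_of_eq h0) (le_trans (Finset.sum_le_sum fun i hi => ?_) hmult)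
        exact hP.count l hl i hi
      · intro w hw
        refine le_trans ?_ (hP.small l hl w hw)
        refine Finset.card_le_card_of_injOn (Fin.castAdd n) ?_ (fun _ _ _ _ h => hinj h)
        intro i hi
        have hi' : i ∈ V.filter (fun i => D.Var w (Fin.castAdd n i)) := hi
        rw [mem_filter] at hi'
        exact mem_coe.2 (mem_filter.2 ⟨Finset.mem_image_of_mem _ hi'.1, hi'.2⟩)
    · intro x hx hY
      refine hP.complete x ?_
      intro u hu
      rcases List.mem_cons.1 hu with rfl | hu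
      · exact complete_cn (V := V') (q := q) (mu := mu) rk hrk a ha x hY C.out true ((ha3 x).trans hx)
      · obtain ⟨g, hg, rfl⟩ := List.mem_map.1 hu
        have hg' := Finset.mem_toList.1 hg
        refine complete_node (V := V') (q := q) (mu := mu) rk hrk a ha x hY _ _ le_rfl _ ?_
        have := hY g hg'
        cases h : a x (.inr g)
        · simpa [h] using this
        · simpa [h] using this
  choose P hPc hPE hPx using hguess
  -- the sum over the guesses
  set S := Finset.univ.filter (fun x : Fin (n + n) → Bool =>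
    Lib_MP_22d2c8_tw.invForm b (x ∘ finSumFinEquiv) = true) with hS
  have hScover : S ⊆ Z.powerset.biUnion (fun Y => (P Y).biUnion (fun l =>
      Finset.univ.filter (fun x : Fin (n + n) → Bool =>
        ∀ p ∈ l, (net C V' Z Y q mu hmu hrule rk hrk a ha).Holds x p))) := by
    intro x hx
    have hx' := (Finset.mem_filter.1 hx).2
    set Y := Z.filter (fun g => a x (.inr g) = true) with hYdef
    obtain ⟨l, hl, hl'⟩ := hPx Y x hx' (by
      intro g hg
      rw [hYdef, Finset.mem_filter]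
      exact ⟨fun h => h.2, fun h => ⟨hg, h⟩⟩)
    exact Finset.mem_biUnion.2 ⟨Y, Finset.mem_powerset.2 (Finset.filter_subset _ _),
      Finset.mem_biUnion.2 ⟨l, hl, Finset.mem_filter.2 ⟨Finset.mem_univ _, hl'⟩⟩⟩
  -- the bound for one product
  set r := 2 ^ (p + 1) with hr
  have hr0 : r ≠ 0 := by
    rw [hr]
    positivity
  have hG0 : 0 ≤ G / 2 ^ m := by
    rw [hG]
    positivity
  set β : ℝ := (G / 2 ^ m) ^ ((r : ℝ)⁻¹) with hβ
  have hβ0 : 0 ≤ β := Real.rpow_nonneg hG0 _
  have hβr : β ^ r = G / 2 ^ m := Real.rpow_inv_natCast_pow hG0 hr0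
  have hEβ : ∀ Y, ∀ l ∈ P Y, ((Finset.univ.filter (fun x : Fin (n + n) → Bool =>
        ∀ p ∈ l, (net C V' Z Y q mu hmu hrule rk hrk a ha).Holds x p)).card : ℝ) ≤ β := by
    intro Y l hl
    have h1 := hPE Y l hl
    rw [← le_div_iff₀ (by positivity), ← hβr] at h1
    exact le_of_pow_le_pow_left₀ hr0 hβ0 h1
  have hmain : (S.card : ℝ) ≤ 2 ^ Z.card * (M ^ X * β) := by
    calc (S.card : ℝ) ≤ ((∑ Y ∈ Z.powerset, ∑ l ∈ P Y,
          (Finset.univ.filter (fun x : Fin (n + n) → Bool =>
            ∀ p ∈ l, (net C V' Z Y q mu hmu hrule rk hrk a ha).Holds x p)).card : ℕ) : ℝ) := by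
          have h1 := (Finset.card_le_card hScover).trans (Finset.card_biUnion_le.trans
            (Finset.sum_le_sum fun Y _ => Finset.card_biUnion_le))
          exact_mod_cast h1
      _ = ∑ Y ∈ Z.powerset, ∑ l ∈ P Y,
          ((Finset.univ.filter (fun x : Fin (n + n) → Bool =>
            ∀ p ∈ l, (net C V' Z Y q mu hmu hrule rk hrk a ha).Holds x p)).card : ℝ) := by
          push_cast
          rfl
      _ ≤ ∑ Y ∈ Z.powerset, ∑ l ∈ P Y, β :=
          Finset.sum_le_sum fun Y _ => Finset.sum_le_sum fun l hl => hEβ Y l hl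
      _ ≤ ∑ Y ∈ Z.powerset, M ^ X * β := by
          refine Finset.sum_le_sum fun Y _ => ?_
          rw [Finset.sum_const, nsmul_eq_mul]
          refine mul_le_mul_of_nonneg_right ?_ hβ0
          exact_mod_cast hPc Y
      _ = 2 ^ Z.card * (M ^ X * β) := by
          rw [Finset.sum_const, Finset.card_powerset, nsmul_eq_mul]
          push_cast
          rfl
  have hdens := inv_density hn b
  have hMle : M ≤ 2 ^ (ℓ + 4) := by
    have h1 : Fintype.card (Nd (n + n) s) = 2 * (n + n + s) + 2 := by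
      simp only [Fintype.card_sum, Fintype.card_prod, Fintype.card_fin, Fintype.card_bool]
      ring
    have h2 : C.size = n + n + s := rfl
    have h3 : C.size < 2 ^ (ℓ + 1) := Nat.lt_pow_succ_log_self (by norm_num) _
    have h4 : 2 ^ (ℓ + 4) = 2 ^ (ℓ + 1) * 8 := by
      rw [show ℓ + 4 = (ℓ + 1) + 3 by ring, pow_add]
      norm_num
    rw [hM, h1, h4]
    omega
  -- the final comparison
  have hfin : (2 : ℝ) ^ m ≤ ((p : ℝ) + 3) * ((2 : ℝ) ^ (2 + Z.card + X * (ℓ + 4))) ^ r := by
    have h1 : (4 : ℝ) ^ n ≤ 2 ^ (2 + Z.card + X * (ℓ + 4)) * β := by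
      have h2 : (4 : ℝ) ^ n ≤ 4 * S.card := by exact_mod_cast hdens
      have h3 : ((M : ℝ)) ^ X ≤ 2 ^ (X * (ℓ + 4)) := by
        have h6 : (2 : ℝ) ^ (X * (ℓ + 4)) = (2 ^ (ℓ + 4)) ^ X := by
          rw [← pow_mul, mul_comm]
        rw [h6]
        have h7 : (M : ℝ) ≤ 2 ^ (ℓ + 4) := by exact_mod_cast hMle
        exact pow_le_pow_left₀ (Nat.cast_nonneg _) h7 X
      calc (4 : ℝ) ^ n ≤ 4 * S.card := h2
        _ ≤ 4 * (2 ^ Z.card * (M ^ X * β)) := mul_le_mul_of_nonneg_left hmain (by norm_num)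
        _ ≤ 4 * (2 ^ Z.card * (2 ^ (X * (ℓ + 4)) * β)) := by
            refine mul_le_mul_of_nonneg_left ?_ (by norm_num)
            refine mul_le_mul_of_nonneg_left ?_ (by positivity)
            exact mul_le_mul_of_nonneg_right h3 hβ0
        _ = 2 ^ (2 + Z.card + X * (ℓ + 4)) * β := by
            rw [pow_add, pow_add]
            ring
    have h4 : ((4 : ℝ) ^ n) ^ r ≤ (2 ^ (2 + Z.card + X * (ℓ + 4))) ^ r * (G / 2 ^ m) := by
      calc ((4 : ℝ) ^ n) ^ r ≤ (2 ^ (2 + Z.card + X * (ℓ + 4)) * β) ^ r :=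
            pow_le_pow_left₀ (by positivity) h1 r
        _ = (2 ^ (2 + Z.card + X * (ℓ + 4))) ^ r * (G / 2 ^ m) := by
            rw [mul_pow, hβr]
    rw [hG, ← mul_div_assoc, le_div_iff₀ (by positivity)] at h4
    have h5 : (0 : ℝ) < ((4 : ℝ) ^ n) ^ r := by positivity
    refine le_of_mul_le_mul_left ?_ h5
    calc ((4 : ℝ) ^ n) ^ r * 2 ^ m ≤ _ := h4
      _ = _ := by ring
  have hp3 : p + 3 ≤ 2 ^ (p + 1) := by
    clear * - hp
    induction p, hp using Nat.le_induction with
    | base => norm_num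
    | succ c hc ih =>
      have : 2 ^ (c + 1 + 1) = 2 * 2 ^ (c + 1) := by ring
      omega
  have hexp : m ≤ (p + 1) + (2 + Z.card + X * (ℓ + 4)) * r := by
    have h1 : (2 : ℝ) ^ m ≤ 2 ^ ((p + 1) + (2 + Z.card + X * (ℓ + 4)) * r) := by
      refine hfin.trans ?_
      rw [pow_add 2 (p + 1), pow_mul]
      refine mul_le_mul_of_nonneg_right ?_ (by positivity)
      exact_mod_cast hp3
    exact (pow_le_pow_iff_right₀ (by norm_num : (1 : ℝ) < 2)).1 h1
  have hlast : m + 1 ≤ r * (Z.card + X * (q + ℓ + 5)) := by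
    have h1 : p + 2 ≤ r := by omega
    have hX3 : 3 ≤ X := by
      rw [hX]
      have : 4 * 1 * 1 ≤ 4 * k * Dn := Nat.mul_le_mul (Nat.mul_le_mul_left _ hk1) hDn1
      omega
    have h2 : X * (ℓ + 4) + 3 ≤ X * (q + ℓ + 5) := by
      calc X * (ℓ + 4) + 3 ≤ X * (ℓ + 4) + X := by omega
        _ = X * (ℓ + 5) := by ring
        _ ≤ X * (q + ℓ + 5) := Nat.mul_le_mul_left _ (by omega)
    calc m + 1 ≤ (2 + Z.card + X * (ℓ + 4)) * r + r := by omega
      _ = r * (Z.card + (X * (ℓ + 4) + 3)) := by ring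
      _ ≤ r * (Z.card + X * (q + ℓ + 5)) := Nat.mul_le_mul_left _ (by omega)
  have h9 : Q * (m + 1) ≤ Q * r * (Z.card + X * (q + ℓ + 5)) := by
    calc Q * (m + 1) ≤ Q * (r * (Z.card + X * (q + ℓ + 5))) := Nat.mul_le_mul_left _ hlast
      _ = _ := by ring
  omega

/-- the inverse function depends on every bit of its first half -/
lemma inv_sensitive {n : ℕ} {K : Type} [Field K] [Algebra (ZMod 2) K]
    (b : Module.Basis (Fin n) (ZMod 2) K) (i : Fin n) :
    ∃ y y' : Fin (n + n) → Bool, (∀ j, j ≠ Fin.castAdd n i → y j = y' j) ∧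
      Lib_MP_22d2c8_tw.invForm b (y ∘ finSumFinEquiv) = true ∧
      Lib_MP_22d2c8_tw.invForm b (y' ∘ finSumFinEquiv) = false := by
  classical
  have hne : (b i)⁻¹ ≠ 0 := inv_ne_zero (b.ne_zero i)
  have hex : ∃ k, b.repr ((b i)⁻¹) k ≠ 0 := by
    by_contra hc
    push Not at hc
    apply hne
    have : b.repr ((b i)⁻¹) = 0 := by
      ext k
      simpa using hc k
    simpa using this
  obtain ⟨k, hk⟩ := hex
  refine ⟨Fin.append (fun i' => decide (i' = i)) (fun k' => decide (k' = k)),
    Fin.append (fun _ => false) (fun k' => decide (k' = k)), ?_, ?_, ?_⟩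
  · intro j hj
    refine Fin.addCases (fun i' hj => ?_) (fun k' hj => ?_) j hj
    · rw [Fin.append_left, Fin.append_left]
      have : i' ≠ i := fun h => hj (by rw [h])
      simp [this]
    · rw [Fin.append_right, Fin.append_right]
  · unfold Lib_MP_22d2c8_tw.invForm
    simp only [Function.comp_apply, finSumFinEquiv_apply_left, finSumFinEquiv_apply_right,
      Fin.append_left, Fin.append_right]
    have hsum : (∑ i', Lib_MP_22d2c8_tw.bit (decide (i' = i)) • b i') = b i := by
      rw [Finset.sum_eq_single i]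
      · simp [Lib_MP_22d2c8_tw.bit]
      · intro i' _ hne
        simp [Lib_MP_22d2c8_tw.bit, hne]
      · intro h
        exact absurd (mem_univ _) h
    rw [hsum, decide_eq_true_eq, Finset.sum_eq_single k]
    · have h2 : b.repr ((b i)⁻¹) k = 1 := by
        have : ∀ a : ZMod 2, a ≠ 0 → a = 1 := by decide
        exact this _ hk
      rw [h2]
      simp [Lib_MP_22d2c8_tw.bit]
    · intro k' _ hne
      simp [Lib_MP_22d2c8_tw.bit, hne]
    · intro h
      exact absurd (mem_univ _) h
  · unfold Lib_MP_22d2c8_tw.invForm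
    simp only [Function.comp_apply, finSumFinEquiv_apply_left, finSumFinEquiv_apply_right,
      Fin.append_left, Fin.append_right]
    simp [Lib_MP_22d2c8_tw.bit]

/-- every input in the first half is read -/
theorem card_le_reads {n s q R : ℕ}
    {K : Type} [Field K] [Algebra (ZMod 2) K] (b : Module.Basis (Fin n) (ZMod 2) K)
    (C : Circuit (n + n) s)
    (hC : C.Computes (fun y => Lib_MP_22d2c8_tw.invForm b (y ∘ finSumFinEquiv)))
    (Z : Finset (Fin s)) (V : Finset (Fin n))
    (hread : ReadLE C Z q (V.image (Fin.castAdd n)) R) : V.card ≤ R := by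
  classical
  obtain ⟨rk, hrk⟩ := C.acyclic
  set V' := V.image (Fin.castAdd n) with hV'
  obtain ⟨mu, hmu, hrule, hmul⟩ := hread
  choose a ha1 ha2 ha3' using hC
  have ha3 : ∀ x, a x C.out = Lib_MP_22d2c8_tw.invForm b (x ∘ finSumFinEquiv) := ha3'
  clear ha3'
  have ha : Real C a := ⟨ha1, ha2⟩
  have hinj : Function.Injective (Fin.castAdd n : Fin n → Fin (n + n)) := Fin.castAdd_injective n n
  have hcV' : V'.card = V.card := Finset.card_image_of_injective _ hinj
  rw [← hcV']
  refine le_trans ?_ hmul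
  rw [Finset.card_eq_sum_ones]
  refine Finset.sum_le_sum fun i hi => ?_
  obtain ⟨i₀, hi₀, rfl⟩ := Finset.mem_image.1 hi
  by_contra hcon
  push Not at hcon
  have hzero : cut Z mu C.out true (Fin.castAdd n i₀) = 0 ∧
      ∑ g ∈ Z, max (mu (.inr g) true (Fin.castAdd n i₀)) (mu (.inr g) false (Fin.castAdd n i₀)) = 0 := by
    omega
  obtain ⟨hz1, hz2⟩ := hzero
  rw [Finset.sum_eq_zero_iff] at hz2
  obtain ⟨y, y', hyy, hy1, hy2⟩ := inv_sensitive b i₀
  set Y := Z.filter (fun g => a y (.inr g) = true) with hYdef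
  have hY : ∀ g ∈ Z, (g ∈ Y ↔ a y (.inr g) = true) := by
    intro g hg
    rw [hYdef, Finset.mem_filter]
    exact ⟨fun h => h.2, fun h => ⟨hg, h⟩⟩
  set D := net C V' Z Y q mu hmu hrule rk hrk a ha with hD
  have hout : D.val y (cn Z Y C.out true) :=
    complete_cn (V := V') (q := q) (mu := mu) rk hrk a ha y hY C.out true ((ha3 y).trans hy1)
  have hroot : ∀ g ∈ Z, D.val y (.inl (.inr g, decide (g ∈ Y))) := by
    intro g hg
    refine complete_node (V := V') (q := q) (mu := mu) rk hrk a ha y hY _ _ le_rfl _ ?_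
    have := hY g hg
    cases h : a y (.inr g)
    · simpa [h] using this
    · simpa [h] using this
  have hmove : ∀ u, D.mu u (Fin.castAdd n i₀) = 0 → D.val y u → D.val y' u := by
    intro u hu hv
    refine D.dep u y y' (fun j hj => hyy j ?_) hv
    rintro rfl
    omega
  have h1 : a y' C.out = true := by
    refine sound_cn (V := V') (q := q) (mu := mu) (Z := Z) (Y := Y) rk hrk a ha y' ?_ C.out true ?_
    · intro g hg
      refine hmove _ ?_ (hroot g hg)
      have h2 : D.mu (.inl (.inr g, decide (g ∈ Y))) (Fin.castAdd n i₀) ≤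
          mu (.inr g) (decide (g ∈ Y)) (Fin.castAdd n i₀) := ndMu_gate_le g _ _
      have h3 := hz2 g hg
      have h4 : mu (.inr g) (decide (g ∈ Y)) (Fin.castAdd n i₀) ≤
          max (mu (.inr g) true (Fin.castAdd n i₀)) (mu (.inr g) false (Fin.castAdd n i₀)) := by
        cases decide (g ∈ Y)
        · exact le_max_right _ _
        · exact le_max_left _ _
      omega
    · refine hmove _ ?_ hout
      have h2 : D.mu (cn Z Y C.out true) (Fin.castAdd n i₀) ≤
          cut Z mu C.out true (Fin.castAdd n i₀) := ndMu_cn_le hmu _ _ _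
      omega
  rw [ha3 y', hy2] at h1
  exact Bool.false_ne_true h1

end Pool.Agent.Lib_MP_22d2c8_read
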