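import Pool.Agent.Lib_MP_22d2c8_read.InvBox
import Pool.Agent.Lib_MP_22d2c8_read.Decomp
import Pool.Agent.Lib_MP_22d2c8_tw.Colour

/-!
# A product of pieces below the inverse function accepts few inputs
-/

namespace Pool.Agent.Lib_MP_22d2c8_read

open Finset Pool.Agent.Lib_MP_22d2c8_tw

lemma sgn_invForm {n : ℕ} {K : Type} [Field K] [Algebra (ZMod 2) K]
    (b : Module.Basis (Fin n) (ZMod 2) K) (x z : Fin n → Bool) :
    sgn (invForm b (Fin.append x z ∘ finSumFinEquiv)) = chr b z ((∑ i, bit (x i) • b i)⁻¹) := by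
  unfold invForm chr
  simp only [Function.comp_apply, finSumFinEquiv_apply_left, finSumFinEquiv_apply_right,
    Fin.append_left, Fin.append_right]

/-- exchanging the block variables with bits outside -/
lemma sum_ext {n p m : ℕ} (e : Fin p × Fin m → Fin n) (he : Function.Injective e)
    (g : (Fin n → Bool) → ℝ) :
    ∑ ρ : Fin n → Bool, ∑ x : Fin p → Fin m → Bool, g (ext e ρ x) =
      (Fintype.card (Fin m → Bool) : ℝ) ^ p * ∑ x : Fin n → Bool, g x := by
  classical
  let sw : (Fin n → Bool) × (Fin p → Fin m → Bool) → (Fin n → Bool) × (Fin p → Fin m → Bool) :=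
    fun w => (ext e w.1 w.2, fun j a => w.1 (e (j, a)))
  have hsw : Function.Involutive sw := by
    rintro ⟨ρ, x⟩
    refine Prod.ext ?_ ?_
    · funext i
      by_cases hi : ∃ ja, e ja = i
      · obtain ⟨ja, rfl⟩ := hi
        show ext e (ext e ρ x) (fun j a => ρ (e (j, a))) (e ja) = ρ (e ja)
        rw [ext_apply he]
      · show ext e (ext e ρ x) (fun j a => ρ (e (j, a))) i = ρ i
        rw [ext_apply' _ _ _ hi, ext_apply' _ _ _ hi]
    · funext j a
      show ext e ρ x (e (j, a)) = x j a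
      rw [ext_apply he]
  rw [← Fintype.sum_prod_type' (f := fun (ρ : Fin n → Bool) (x : Fin p → Fin m → Bool) =>
    g (ext e ρ x))]
  have h1 : ∑ w : (Fin n → Bool) × (Fin p → Fin m → Bool), g (ext e w.1 w.2) =
      ∑ w : (Fin n → Bool) × (Fin p → Fin m → Bool), g w.1 :=
    Equiv.sum_comp hsw.toPerm (fun w : (Fin n → Bool) × (Fin p → Fin m → Bool) => g w.1)
  rw [h1, Fintype.sum_prod_type' (f := fun (ρ : Fin n → Bool) (_ : Fin p → Fin m → Bool) => g ρ)]
  simp only [Finset.sum_const, nsmul_eq_mul, ← Finset.mul_sum, Finset.card_univ]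
  congr 1
  rw [Fintype.card_fun (α := Fin p), Fintype.card_fin]
  push_cast
  rfl

open Classical in
theorem product_small {n : ℕ} {K : Type} [Field K] [Algebra (ZMod 2) K]
    (b : Module.Basis (Fin n) (ZMod 2) K) (p m : ℕ) (e : Fin (p + 1) × Fin m → Fin n)
    (he : Function.Injective e) (φ : Fin (p + 1) → (Fin (n + n) → Bool) → Prop)
    (hf : ∀ y, (∀ j, φ j y) → invForm b (y ∘ finSumFinEquiv) = true)
    (hφ : ∀ j y y', (∀ u, (∀ a, u ≠ Fin.castAdd n (e (j, a))) → y u = y' u) → φ j y → φ j y') :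
    ((univ.filter (fun y => ∀ j, φ j y)).card : ℝ) ^ (2 ^ (p + 1)) * 2 ^ m ≤
      ((p : ℝ) + 3) * ((4 : ℝ) ^ n) ^ (2 ^ (p + 1)) := by
  set ind : Fin (p + 1) → (Fin n → Bool) → (Fin n → Bool) → ℝ := fun j x z =>
    if φ j (Fin.append x z) then 1 else 0 with hind
  set N : ℝ := (Fintype.card (Fin m → Bool) : ℝ) ^ (p + 1) with hN
  have hNpos : 0 < N := by positivity
  set A : (Fin n → Bool) → (Fin n → Bool) → ℝ := fun ρ z =>
    (∑ x' : Fin (p + 1) → (Fin m → Bool), ∏ j, ind j (ext e ρ x') z) / N with hA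
  have hprod0 : ∀ x z, 0 ≤ ∏ j, ind j x z := by
    intro x z
    refine Finset.prod_nonneg fun j _ => ?_
    simp only [hind]
    split_ifs <;> norm_num
  have hA0 : ∀ ρ z, 0 ≤ A ρ z := by
    intro ρ z
    exact div_nonneg (Finset.sum_nonneg fun x' _ => hprod0 _ _) hNpos.le
  -- the sum of the averages
  have hcard : ((univ.filter (fun y => ∀ j, φ j y)).card : ℝ) =
      ∑ w : (Fin n → Bool) × (Fin n → Bool), A w.1 w.2 := by
    rw [Fintype.sum_prod_type_right (f := fun w : (Fin n → Bool) × (Fin n → Bool) => A w.1 w.2)]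
    have h1 : ∀ z, ∑ ρ, A ρ z = ∑ x, ∏ j, ind j x z := by
      intro z
      simp only [hA]
      rw [← Finset.sum_div, sum_ext e he (fun x => ∏ j, ind j x z), mul_div_cancel_left₀]
      exact hNpos.ne'
    rw [Finset.sum_congr rfl fun z _ => h1 z]
    rw [← Fintype.sum_prod_type_right (f := fun w : (Fin n → Bool) × (Fin n → Bool) =>
      ∏ j, ind j w.1 w.2)]
    have h2 : ∀ w : (Fin n → Bool) × (Fin n → Bool), ∏ j, ind j w.1 w.2 =
        if ∀ j, φ j (Fin.append w.1 w.2) then 1 else 0 := by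
      intro w
      by_cases h : ∀ j, φ j (Fin.append w.1 w.2)
      · rw [if_pos h]
        refine Finset.prod_eq_one fun j _ => ?_
        simp only [hind]
        rw [if_pos (h j)]
      · rw [if_neg h]
        push Not at h
        obtain ⟨j, hj⟩ := h
        refine Finset.prod_eq_zero (Finset.mem_univ j) ?_
        simp only [hind]
        rw [if_neg hj]
    rw [Finset.sum_congr rfl fun w _ => h2 w]
    have h3 : ∑ w : (Fin n → Bool) × (Fin n → Bool),
        (if ∀ j, φ j (Fin.append w.1 w.2) then (1 : ℝ) else 0) =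
        ∑ y : Fin (n + n) → Bool, if ∀ j, φ j y then (1 : ℝ) else 0 :=
      Equiv.sum_comp (Fin.appendEquiv n n) (fun y : Fin (n + n) → Bool =>
        if ∀ j, φ j y then (1 : ℝ) else 0)
    rw [h3, Finset.sum_boole]
  -- the correlation bound
  have hbox : ∀ ρ z, A ρ z ^ (2 ^ (p + 1)) ≤ box (p + 1)
      (fun x' : Fin (p + 1) → (Fin m → Bool) =>
        chr b z ((∑ i, bit (ext e ρ x' i) • b i)⁻¹)) := by
    intro ρ z
    have h1 := corr_le_box p (fun x' : Fin (p + 1) → (Fin m → Bool) =>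
        chr b z ((∑ i, bit (ext e ρ x' i) • b i)⁻¹)) (fun j x' => ind j (ext e ρ x') z)
      (by
        intro j x'
        simp only [hind]
        split_ifs <;> norm_num)
      (by
        have key : ∀ (j : Fin (p + 1)) (x x' : Fin (p + 1) → (Fin m → Bool)),
            (∀ i, i ≠ j → x i = x' i) →
            φ j (Fin.append (ext e ρ x) z) → φ j (Fin.append (ext e ρ x') z) := by
          intro j x x' hx
          refine hφ j _ _ fun u hu => ?_
          refine Fin.addCases (fun i hu => ?_) (fun i hu => ?_) u hu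
          · rw [Fin.append_left, Fin.append_left]
            by_cases hi : ∃ ja, e ja = i
            · obtain ⟨ja, rfl⟩ := hi
              rw [ext_apply he, ext_apply he]
              have h2 : ja.1 ≠ j := by
                intro h
                exact hu ja.2 (by rw [← h])
              rw [hx _ h2]
            · rw [ext_apply' _ _ _ hi, ext_apply' _ _ _ hi]
          · rw [Fin.append_right, Fin.append_right]
        intro j x x' hx
        simp only [hind]
        by_cases h : φ j (Fin.append (ext e ρ x) z)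
        · rw [if_pos h, if_pos (key j x x' hx h)]
        · rw [if_neg h, if_neg (fun h' => h (key j x' x (fun i hi => (hx i hi).symm) h'))])
    refine le_trans (le_of_eq ?_) h1
    have h2 : ∑ x' : Fin (p + 1) → (Fin m → Bool),
        chr b z ((∑ i, bit (ext e ρ x' i) • b i)⁻¹) * ∏ j, ind j (ext e ρ x') z =
        -∑ x' : Fin (p + 1) → (Fin m → Bool), ∏ j, ind j (ext e ρ x') z := by
      rw [← Finset.sum_neg_distrib]
      refine Finset.sum_congr rfl fun x' _ => ?_
      by_cases h : ∀ j, φ j (Fin.append (ext e ρ x') z)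
      · have h3 := hf _ h
        have h4 := sgn_invForm b (ext e ρ x') z
        rw [← h4, h3]
        simp [sgn]
      · push Not at h
        obtain ⟨j, hj⟩ := h
        have h3 : ∏ j, ind j (ext e ρ x') z = 0 := by
          refine Finset.prod_eq_zero (Finset.mem_univ j) ?_
          simp only [hind]
          rw [if_neg hj]
        rw [h3, mul_zero, neg_zero]
    rw [h2, neg_div, abs_neg, ← hN]
    rw [abs_of_nonneg (hA0 ρ z)]
  -- the power mean inequality
  obtain ⟨c, hc⟩ : ∃ c, 2 ^ (p + 1) = c + 1 := ⟨2 ^ (p + 1) - 1, by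
    have : 0 < 2 ^ (p + 1) := by positivity
    omega⟩
  have hpm := pow_sum_div_card_le_sum_pow (s := (univ : Finset ((Fin n → Bool) × (Fin n → Bool))))
    (f := fun w => A w.1 w.2) (fun w _ => hA0 _ _) c
  rw [← hcard, ← hc] at hpm
  have hcardU : ((univ : Finset ((Fin n → Bool) × (Fin n → Bool))).card : ℝ) = 4 ^ n := by
    rw [Finset.card_univ, Fintype.card_prod]
    simp only [Fintype.card_fun, Fintype.card_bool, Fintype.card_fin]
    push_cast
    rw [← mul_pow]
    norm_num
  rw [hcardU, div_le_iff₀ (by positivity)] at hpm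
  have hsum : ∑ w : (Fin n → Bool) × (Fin n → Bool), A w.1 w.2 ^ (2 ^ (p + 1)) ≤
      4 ^ n * (((p : ℝ) + 3) / 2 ^ m) := by
    calc ∑ w : (Fin n → Bool) × (Fin n → Bool), A w.1 w.2 ^ (2 ^ (p + 1))
        ≤ ∑ w : (Fin n → Bool) × (Fin n → Bool), box (p + 1)
          (fun x' : Fin (p + 1) → (Fin m → Bool) =>
            chr b w.2 ((∑ i, bit (ext e w.1 x' i) • b i)⁻¹)) :=
          Finset.sum_le_sum fun w _ => hbox w.1 w.2
      _ = ∑ ρ : Fin n → Bool, ∑ z : Fin n → Bool, box (p + 1)
          (fun x' : Fin (p + 1) → (Fin m → Bool) =>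
            chr b z ((∑ i, bit (ext e ρ x' i) • b i)⁻¹)) :=
          Fintype.sum_prod_type _
      _ ≤ ∑ _ρ : Fin n → Bool, 2 ^ n * (((p : ℝ) + 3) / 2 ^ m) :=
          Finset.sum_le_sum fun ρ _ => sum_box_le b p m e he ρ
      _ = 4 ^ n * (((p : ℝ) + 3) / 2 ^ m) := by
          rw [Finset.sum_const, nsmul_eq_mul, Finset.card_univ]
          simp only [Fintype.card_fun, Fintype.card_bool, Fintype.card_fin]
          push_cast
          rw [← mul_assoc, ← mul_pow]
          norm_num
  have h2m : (0 : ℝ) < 2 ^ m := by positivity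
  calc ((univ.filter (fun y => ∀ j, φ j y)).card : ℝ) ^ (2 ^ (p + 1)) * 2 ^ m
      ≤ ((∑ w : (Fin n → Bool) × (Fin n → Bool), A w.1 w.2 ^ (2 ^ (p + 1))) * (4 ^ n) ^ c) *
          2 ^ m := mul_le_mul_of_nonneg_right hpm h2m.le
    _ ≤ ((4 ^ n * (((p : ℝ) + 3) / 2 ^ m)) * (4 ^ n) ^ c) * 2 ^ m := by
        refine mul_le_mul_of_nonneg_right ?_ h2m.le
        exact mul_le_mul_of_nonneg_right hsum (by positivity)
    _ = ((p : ℝ) + 3) * ((4 : ℝ) ^ n) ^ (2 ^ (p + 1)) := by
        rw [hc, pow_succ]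
        field_simp

theorem product_small' {n : ℕ} {K : Type} [Field K] [Algebra (ZMod 2) K]
    (b : Module.Basis (Fin n) (ZMod 2) K) (p m : ℕ) (e : Fin (p + 1) × Fin m → Fin n)
    (he : Function.Injective e) (φ : Fin (p + 1) → (Fin (n + n) → Bool) → Prop)
    (hf : ∀ y, (∀ j, φ j y) → invForm b (y ∘ finSumFinEquiv) = true)
    (hφ : ∀ j y y', (∀ u, (∀ a, u ≠ Fin.castAdd n (e (j, a))) → y u = y' u) → φ j y → φ j y')
    (E : Finset (Fin (n + n) → Bool)) (hE : ∀ y ∈ E, ∀ j, φ j y) :
    (E.card : ℝ) ^ (2 ^ (p + 1)) * 2 ^ m ≤ ((p : ℝ) + 3) * ((4 : ℝ) ^ n) ^ (2 ^ (p + 1)) := by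
  classical
  refine le_trans ?_ (product_small b p m e he φ hf hφ)
  refine mul_le_mul_of_nonneg_right ?_ (by positivity)
  refine pow_le_pow_left₀ (Nat.cast_nonneg _) ?_ _
  refine Nat.cast_le.2 (Finset.card_le_card fun y hy => ?_)
  rw [mem_filter]
  exact ⟨mem_univ _, hE y hy⟩

end Pool.Agent.Lib_MP_22d2c8_read
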