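import Pool.Agent.Lib_MP_22d2c8_read.InvFinal

/-!
# The trade-off between the number of reads and the logarithm of the size
-/

namespace Pool.Agent.Lib_MP_22d2c8_read

open Finset Pool.Agent.Lib_MP_22d2c8_lc

lemma reads_aux (P : ℕ) (hP : 2 ≤ P) : 2 ^ 31 * P ^ 6 ≤ 2 ^ (19 * P) := by
  induction P, hP using Nat.le_induction with
  | base => norm_num
  | succ k hk ih =>
    have h1 : (k + 1) ^ 6 ≤ 2 ^ 19 * k ^ 6 := by
      have h2 : (k + 1) ^ 6 ≤ (2 * k) ^ 6 := Nat.pow_le_pow_left (by omega) 6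
      rw [mul_pow] at h2
      refine h2.trans (Nat.mul_le_mul_right _ (by norm_num))
    calc 2 ^ 31 * (k + 1) ^ 6 ≤ 2 ^ 31 * (2 ^ 19 * k ^ 6) := Nat.mul_le_mul_left _ h1
      _ = 2 ^ 19 * (2 ^ 31 * k ^ 6) := by ring
      _ ≤ 2 ^ 19 * 2 ^ (19 * k) := Nat.mul_le_mul_left _ ih
      _ = 2 ^ (19 * (k + 1)) := by rw [← pow_add]; congr 1; ring

theorem reads_tradeoff {n s q R : ℕ}
    {K : Type} [Field K] [Algebra (ZMod 2) K] (b : Module.Basis (Fin n) (ZMod 2) K)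
    (C : Circuit (n + n) s)
    (hC : C.Computes (fun y => Lib_MP_22d2c8_tw.invForm b (y ∘ finSumFinEquiv)))
    (Z : Finset (Fin s)) (V : Finset (Fin n))
    (hread : ReadLE C Z q (V.image (Fin.castAdd n)) R)
    (hV : Z.card + q + Nat.log 2 C.size + 5 ≤ V.card) :
    (V.card : ℝ) * (Real.logb 2 (V.card / (Z.card + q + Nat.log 2 C.size + 5))) ^ 2 ≤
      676 * R := by
  set W : ℕ := Z.card + q + Nat.log 2 C.size + 5 with hW
  have hWR : ((Z.card : ℝ) + q + Nat.log 2 C.size + 5) = (W : ℝ) := by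
    rw [hW]
    push_cast
    ring
  rw [hWR]
  set v : ℕ := V.card with hv
  have hvR : v ≤ R := card_le_reads b C hC Z V hread
  have hW0 : (0 : ℝ) < W := by
    have : 0 < W := by omega
    exact_mod_cast this
  have hv0 : (0 : ℝ) < v := by
    have : 0 < v := by omega
    exact_mod_cast this
  have hWv : (W : ℝ) ≤ v := by exact_mod_cast hV
  have hratio : 1 ≤ (v : ℝ) / W := by rwa [one_le_div hW0]
  set ℓ : ℝ := Real.logb 2 ((v : ℝ) / W) with hℓ
  have hℓ0 : 0 ≤ ℓ := Real.logb_nonneg (by norm_num) hratio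
  have hvRR : (v : ℝ) ≤ R := by exact_mod_cast hvR
  by_contra hcon
  push Not at hcon
  have hℓ26 : 26 < ℓ := by
    by_contra h
    push Not at h
    have h1 : ℓ ^ 2 ≤ 676 := by nlinarith
    have h2 : (v : ℝ) * ℓ ^ 2 ≤ v * 676 := mul_le_mul_of_nonneg_left h1 hv0.le
    linarith
  set P : ℕ := ⌈ℓ / 26⌉₊ with hP
  have hPge : ℓ / 26 ≤ P := Nat.le_ceil _
  have hPlt : (P : ℝ) < ℓ / 26 + 1 := Nat.ceil_lt_add_one (by positivity)
  have hP2 : 2 ≤ P := by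
    have : (1 : ℝ) < P := by linarith
    have : 1 < P := by exact_mod_cast this
    omega
  obtain ⟨p, hp⟩ : ∃ p, P = p + 1 := ⟨P - 1, by omega⟩
  have hRP : R ≤ P * P * v := by
    have h1 : ℓ ^ 2 ≤ (26 * (P : ℝ)) ^ 2 := by
      apply pow_le_pow_left₀ hℓ0
      linarith
    have h2 : (v : ℝ) * ℓ ^ 2 ≤ v * (26 * (P : ℝ)) ^ 2 := mul_le_mul_of_nonneg_left h1 hv0.le
    have h3 : (R : ℝ) ≤ P * P * v := by nlinarith
    exact_mod_cast h3
  have hmain : v ≤ 2 ^ (P + 1) * P * 4 ^ P *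
      (Z.card + 16 * P ^ 3 * P ^ 2 * 16 ^ P * (q + Nat.log 2 C.size + 5)) := by
    have h := inv_reads (p := p) (t := P) (by omega) (by omega) b C hC Z V hread
      (by rw [← hp]; exact hRP)
    rw [hp] at h ⊢
    exact h
  have hbound : v ≤ 32 * P ^ 6 * 2 ^ (7 * P) * W := by
    refine hmain.trans ?_
    have h1 : Z.card + 16 * P ^ 3 * P ^ 2 * 16 ^ P * (q + Nat.log 2 C.size + 5) ≤
        16 * P ^ 3 * P ^ 2 * 16 ^ P * W := by
      have h2 : 1 ≤ 16 * P ^ 3 * P ^ 2 * 16 ^ P := by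
        have : 0 < 16 * P ^ 3 * P ^ 2 * 16 ^ P := by positivity
        omega
      calc Z.card + 16 * P ^ 3 * P ^ 2 * 16 ^ P * (q + Nat.log 2 C.size + 5)
          = 1 * Z.card + 16 * P ^ 3 * P ^ 2 * 16 ^ P * (q + Nat.log 2 C.size + 5) := by
            rw [one_mul]
        _ ≤ 16 * P ^ 3 * P ^ 2 * 16 ^ P * Z.card +
            16 * P ^ 3 * P ^ 2 * 16 ^ P * (q + Nat.log 2 C.size + 5) :=
            Nat.add_le_add_right (Nat.mul_le_mul_right _ h2) _
        _ = 16 * P ^ 3 * P ^ 2 * 16 ^ P * W := by rw [hW]; ring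
    refine (Nat.mul_le_mul_left _ h1).trans (le_of_eq ?_)
    have h7 : 2 ^ (7 * P) = 2 ^ P * 4 ^ P * 16 ^ P := by
      rw [pow_mul, ← mul_pow, ← mul_pow]
      norm_num
    rw [h7]
    ring
  have hlow : (2 : ℝ) ^ (26 * P) * W < 2 ^ 26 * v := by
    have h1 : (26 : ℝ) * (P - 1) < ℓ := by linarith
    have h2 : (2 : ℝ) ^ ((26 : ℝ) * ((P : ℝ) - 1)) < (v : ℝ) / W := by
      rw [hℓ] at h1
      exact (Real.lt_logb_iff_rpow_lt (by norm_num) (by positivity)).1 h1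
    have h3 : (2 : ℝ) ^ ((26 : ℝ) * ((P : ℝ) - 1)) = 2 ^ (26 * P) / 2 ^ 26 := by
      have : (26 : ℝ) * ((P : ℝ) - 1) = ((26 * P : ℕ) : ℝ) - ((26 : ℕ) : ℝ) := by push_cast; ring
      rw [this, Real.rpow_sub (by norm_num), Real.rpow_natCast, Real.rpow_natCast]
    rw [h3, div_lt_div_iff₀ (by positivity) hW0] at h2
    linarith
  have hlowN : 2 ^ (26 * P) * W < 2 ^ 26 * v := by exact_mod_cast hlow
  have hfin : 2 ^ (26 * P) * W < 2 ^ (26 * P) * W := by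
    calc 2 ^ (26 * P) * W < 2 ^ 26 * v := hlowN
      _ ≤ 2 ^ 26 * (32 * P ^ 6 * 2 ^ (7 * P) * W) := Nat.mul_le_mul_left _ hbound
      _ = (2 ^ 31 * P ^ 6) * 2 ^ (7 * P) * W := by ring
      _ ≤ 2 ^ (19 * P) * 2 ^ (7 * P) * W :=
          Nat.mul_le_mul_right _ (Nat.mul_le_mul_right _ (reads_aux P hP2))
      _ = 2 ^ (26 * P) * W := by
          rw [← pow_add]
          congr 2
          ring
  exact lt_irrefl _ hfin

end Pool.Agent.Lib_MP_22d2c8_read
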