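import Pool.Agent.Lib_MP_22d2c8_read.ToNet

/-!
# Soundness and completeness of the abstract circuit
-/

namespace Pool.Agent.Lib_MP_22d2c8_read

open Finset Pool.Agent.Lib_MP_22d2c8_lc

variable {N s : ℕ} {C : Circuit N s} {V : Finset (Fin N)} {Z Y : Finset (Fin s)} {q : ℕ}
  {mu : Fin N ⊕ Fin s → Bool → Fin N → ℕ}

lemma val_const {a : (Fin N → Bool) → Fin N ⊕ Fin s → Bool} {x : Fin N → Bool} {c : Bool} :
    Val (ndKind C V Z Y q mu) (ndAv a x) (.inr c) ↔ c = true :=
  Val.atom_iff rfl

lemma val_inp {a : (Fin N → Bool) → Fin N ⊕ Fin s → Bool} {x : Fin N → Bool} {j : Fin N}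
    {b : Bool} : Val (ndKind C V Z Y q mu) (ndAv a x) (.inl (.inl j, b)) ↔ a x (.inl j) = b :=
  Val.atom_iff (kind := ndKind C V Z Y q mu) (av := ndAv a x) (w := .inl (.inl j, b)) rfl

lemma cn_mem {g : Fin s} (hg : g ∈ Z) (b : Bool) :
    cn (N := N) Z Y (.inr g) b = .inr (decide (g ∈ Y) == b) := if_pos hg

lemma cn_notMem {g : Fin s} (hg : g ∉ Z) (b : Bool) :
    cn (N := N) Z Y (.inr g) b = .inl (.inr g, b) := if_neg hg

lemma sound_node (rk : Fin N ⊕ Fin s → ℕ) (hrk : ∀ g, ∀ u ∈ (C.op g).preds, rk u < rk (.inr g))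
    (a : (Fin N → Bool) → Fin N ⊕ Fin s → Bool) (ha : Real C a) (x : Fin N → Bool)
    (hroot : ∀ g ∈ Z, Val (ndKind C V Z Y q mu) (ndAv a x) (.inl (.inr g, decide (g ∈ Y)))) :
    ∀ (r : ℕ) (u : Fin N ⊕ Fin s), rk u ≤ r → ∀ b,
      Val (ndKind C V Z Y q mu) (ndAv a x) (.inl (u, b)) → a x u = b := by
  intro r
  induction r using Nat.strong_induction_on with
  | _ r ih =>
  intro u hur b hv
  rcases u with j | g
  · exact val_inp.1 hv
  · have hcn : ∀ u ∈ (C.op g).preds, ∀ c,
        Val (ndKind C V Z Y q mu) (ndAv a x) (cn Z Y u c) → a x u = c := by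
      intro u hu c hc
      have hr := hrk g u hu
      rcases u with j | g'
      · exact ih (rk (.inl j)) (by omega) _ le_rfl c hc
      · by_cases hg' : g' ∈ Z
        · rw [cn_mem hg', val_const, beq_iff_eq] at hc
          rw [← hc]
          exact ih (rk (.inr g')) (by omega) _ le_rfl _ (hroot g' hg')
        · rw [cn_notMem hg'] at hc
          exact ih (rk (.inr g')) (by omega) _ le_rfl _ hc
    rw [ha.gate]
    rcases hk : ndKind C V Z Y q mu (.inl (.inr g, b)) with _ | ⟨w₁, w₂⟩ | ⟨w₁, w₂⟩
    · rw [← ha.gate]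
      exact (Val.atom_iff hk).1 hv
    · obtain ⟨h1, h2⟩ := (Val.and_iff hk).1 hv
      obtain ⟨g', b', u, v, he, _, _, hu, hv', rfl, rfl, hop⟩ := ndKind_and hk
      injection he with he
      injection he with he1 he2
      injection he1 with he1
      subst he1
      subst he2
      have e1 := hcn u hu b h1
      have e2 := hcn v hv' b h2
      rcases hop with ⟨hop, rfl⟩ | ⟨hop, rfl⟩
      · rw [hop]
        simp [Op.eval, e1, e2]
      · rw [hop]
        simp [Op.eval, e1, e2]
    · obtain ⟨g', b', c, u, v, he, _, hu, hv', rfl, rfl, hop⟩ := ndKind_or hk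
      injection he with he
      injection he with he1 he2
      injection he1 with he1
      subst he1
      subst he2
      have h1 : a x u = c ∨ a x v = c := by
        rcases (Val.or_iff hk).1 hv with h | h
        · exact Or.inl (hcn u hu c h)
        · exact Or.inr (hcn v hv' c h)
      rcases hop with ⟨hop, rfl, rfl⟩ | ⟨hop, rfl, h⟩ | ⟨hop, rfl, h⟩
      · rw [hop]
        have h2 : a x u = !b := h1.elim id id
        simp [Op.eval, h2]
      · rw [hop]
        rcases h with rfl | rfl
        · rcases h1 with h1 | h1 <;> simp [Op.eval, h1]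
        · have h2 : a x u = b := h1.elim id id
          simp [Op.eval, h2]
      · rw [hop]
        rcases h with rfl | rfl
        · rcases h1 with h1 | h1 <;> simp [Op.eval, h1]
        · have h2 : a x u = b := h1.elim id id
          simp [Op.eval, h2]

lemma sound_cn (rk : Fin N ⊕ Fin s → ℕ) (hrk : ∀ g, ∀ u ∈ (C.op g).preds, rk u < rk (.inr g))
    (a : (Fin N → Bool) → Fin N ⊕ Fin s → Bool) (ha : Real C a) (x : Fin N → Bool)
    (hroot : ∀ g ∈ Z, Val (ndKind C V Z Y q mu) (ndAv a x) (.inl (.inr g, decide (g ∈ Y))))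
    (u : Fin N ⊕ Fin s) (c : Bool)
    (hc : Val (ndKind C V Z Y q mu) (ndAv a x) (cn Z Y u c)) : a x u = c := by
  have h := sound_node rk hrk a ha x hroot
  rcases u with j | g'
  · exact h _ _ le_rfl c hc
  · by_cases hg' : g' ∈ Z
    · rw [cn_mem hg', val_const, beq_iff_eq] at hc
      rw [← hc]
      exact h _ _ le_rfl _ (hroot g' hg')
    · rw [cn_notMem hg'] at hc
      exact h _ _ le_rfl _ hc

lemma complete_node (rk : Fin N ⊕ Fin s → ℕ) (hrk : ∀ g, ∀ u ∈ (C.op g).preds, rk u < rk (.inr g))
    (a : (Fin N → Bool) → Fin N ⊕ Fin s → Bool) (ha : Real C a) (x : Fin N → Bool)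
    (hY : ∀ g ∈ Z, (g ∈ Y ↔ a x (.inr g) = true)) :
    ∀ (r : ℕ) (u : Fin N ⊕ Fin s), rk u ≤ r → ∀ b, a x u = b →
      Val (ndKind C V Z Y q mu) (ndAv a x) (.inl (u, b)) := by
  intro r
  induction r using Nat.strong_induction_on with
  | _ r ih =>
  intro u hur b hb
  rcases u with j | g
  · exact val_inp.2 hb
  · have hcn : ∀ u ∈ (C.op g).preds, ∀ c, a x u = c →
        Val (ndKind C V Z Y q mu) (ndAv a x) (cn Z Y u c) := by
      intro u hu c hc
      have hr := hrk g u hu
      rcases u with j | g'
      · exact ih (rk (.inl j)) (by omega) _ le_rfl c hc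
      · by_cases hg' : g' ∈ Z
        · rw [cn_mem hg', val_const, beq_iff_eq, ← hc]
          have := hY g' hg'
          cases h : a x (.inr g')
          · simpa [h] using this
          · simpa [h] using this
        · rw [cn_notMem hg']
          exact ih (rk (.inr g')) (by omega) _ le_rfl _ hc
    rcases hk : ndKind C V Z Y q mu (.inl (.inr g, b)) with _ | ⟨w₁, w₂⟩ | ⟨w₁, w₂⟩
    · exact (Val.atom_iff hk).2 hb
    · obtain ⟨g', b', u, v, he, _, _, hu, hv', rfl, rfl, hop⟩ := ndKind_and hk
      injection he with he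
      injection he with he1 he2
      injection he1 with he1
      subst he1
      subst he2
      rw [ha.gate] at hb
      have h1 : a x u = b ∧ a x v = b := by
        rcases hop with ⟨hop, rfl⟩ | ⟨hop, rfl⟩
        · rw [hop] at hb
          simpa [Op.eval] using hb
        · rw [hop] at hb
          simpa [Op.eval] using hb
      exact (Val.and_iff hk).2 ⟨hcn u hu b h1.1, hcn v hv' b h1.2⟩
    · obtain ⟨g', b', c, u, v, he, _, hu, hv', rfl, rfl, hop⟩ := ndKind_or hk
      injection he with he
      injection he with he1 he2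
      injection he1 with he1
      subst he1
      subst he2
      rw [ha.gate] at hb
      have h1 : a x u = c ∨ a x v = c := by
        rcases hop with ⟨hop, rfl, rfl⟩ | ⟨hop, rfl, h⟩ | ⟨hop, rfl, h⟩
        · rw [hop] at hb
          left
          rw [← hb]
          simp [Op.eval]
        · rw [hop] at hb
          rcases h with rfl | rfl
          · have hb' : a x u = true → a x v = false := by simpa [Op.eval] using hb
            cases h2 : a x u
            · exact Or.inl rfl
            · exact Or.inr (hb' h2)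
          · left
            simpa [Op.eval] using hb
        · rw [hop] at hb
          rcases h with rfl | rfl
          · simpa [Op.eval] using hb
          · left
            simpa [Op.eval] using hb
      rcases h1 with h1 | h1
      · exact (Val.or_iff hk).2 (Or.inl (hcn u hu c h1))
      · exact (Val.or_iff hk).2 (Or.inr (hcn v hv' c h1))

lemma complete_cn (rk : Fin N ⊕ Fin s → ℕ) (hrk : ∀ g, ∀ u ∈ (C.op g).preds, rk u < rk (.inr g))
    (a : (Fin N → Bool) → Fin N ⊕ Fin s → Bool) (ha : Real C a) (x : Fin N → Bool)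
    (hY : ∀ g ∈ Z, (g ∈ Y ↔ a x (.inr g) = true)) (u : Fin N ⊕ Fin s) (c : Bool)
    (hc : a x u = c) : Val (ndKind C V Z Y q mu) (ndAv a x) (cn Z Y u c) := by
  have h := complete_node (V := V) (q := q) (mu := mu) rk hrk a ha x hY
  rcases u with j | g'
  · exact h _ _ le_rfl c hc
  · by_cases hg' : g' ∈ Z
    · rw [cn_mem hg', val_const, beq_iff_eq, ← hc]
      have := hY g' hg'
      cases h : a x (.inr g')
      · simpa [h] using this
      · simpa [h] using this
    · rw [cn_notMem hg']
      exact h _ _ le_rfl _ hc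

end Pool.Agent.Lib_MP_22d2c8_read
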