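import Pool.Agent.Lib_MP_22d2c8_read.Decomp
import Pool.Agent.Lib_MP_22d2c8_read.Defs

/-!
# From circuits to abstract circuits
-/

namespace Pool.Agent.Lib_MP_22d2c8_read

open Finset Pool.Agent.Lib_MP_22d2c8_lc

/-- the truth of nodes, from the kinds of the nodes and the truth of the atoms -/
inductive Val {W : Type} (kind : W → Kind W) (av : W → Prop) : W → Prop where
  | atom {w : W} : kind w = .atom → av w → Val kind av w
  | and {w a b : W} : kind w = .and a b → Val kind av a → Val kind av b → Val kind av w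
  | orl {w a b : W} : kind w = .or a b → Val kind av a → Val kind av w
  | orr {w a b : W} : kind w = .or a b → Val kind av b → Val kind av w

lemma Val.and_iff {W : Type} {kind : W → Kind W} {av : W → Prop} {w a b : W}
    (hk : kind w = .and a b) : Val kind av w ↔ Val kind av a ∧ Val kind av b := by
  constructor
  · intro h
    cases h with
    | atom hk' _ => rw [hk] at hk'; cases hk'
    | and hk' ha hb => rw [hk] at hk'; cases hk'; exact ⟨ha, hb⟩
    | orl hk' _ => rw [hk] at hk'; cases hk'
    | orr hk' _ => rw [hk] at hk'; cases hk'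
  · rintro ⟨ha, hb⟩
    exact Val.and hk ha hb

lemma Val.or_iff {W : Type} {kind : W → Kind W} {av : W → Prop} {w a b : W}
    (hk : kind w = .or a b) : Val kind av w ↔ Val kind av a ∨ Val kind av b := by
  constructor
  · intro h
    cases h with
    | atom hk' _ => rw [hk] at hk'; cases hk'
    | and hk' _ _ => rw [hk] at hk'; cases hk'
    | orl hk' h => rw [hk] at hk'; cases hk'; exact Or.inl h
    | orr hk' h => rw [hk] at hk'; cases hk'; exact Or.inr h
  · rintro (h | h)
    · exact Val.orl hk h
    · exact Val.orr hk h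

lemma Val.atom_iff {W : Type} {kind : W → Kind W} {av : W → Prop} {w : W}
    (hk : kind w = .atom) : Val kind av w ↔ av w := by
  constructor
  · intro h
    cases h with
    | atom _ h => exact h
    | and hk' _ _ => rw [hk] at hk'; cases hk'
    | orl hk' _ => rw [hk] at hk'; cases hk'
    | orr hk' _ => rw [hk] at hk'; cases hk'
  · intro h
    exact Val.atom hk h

variable {N s : ℕ}

/-- the real values of all vertices -/
structure Real (C : Circuit N s) (a : (Fin N → Bool) → Fin N ⊕ Fin s → Bool) : Prop where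
  inp : ∀ x j, a x (.inl j) = x j
  gate : ∀ x g, a x (.inr g) = (C.op g).eval (a x)

lemma Real.dep {C : Circuit N s} {a : (Fin N → Bool) → Fin N ⊕ Fin s → Bool} (ha : Real C a)
    (g : Fin s) (x y : Fin N → Bool) (h : ∀ i ∈ C.dependsOn g, x i = y i) :
    a x (.inr g) = a y (.inr g) := by
  classical
  have key : ∀ t : Finset (Fin N), (∀ i ∈ t, i ∉ C.dependsOn g) →
      a (t.piecewise y x) (.inr g) = a x (.inr g) := by
    intro t
    induction t using Finset.induction_on with
    | empty =>
      intro _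
      rw [Finset.piecewise_empty]
    | insert i t hi ih =>
      intro ht
      rw [← ih fun j hj => ht j (Finset.mem_insert_of_mem hj)]
      set z := t.piecewise y x with hz
      have h1 : (insert i t).piecewise y x = Function.update z i (y i) := by
        rw [Finset.piecewise_insert]
      rw [h1]
      by_cases h2 : y i = z i
      · rw [h2, Function.update_eq_self]
      · have h3 : Function.update z i (y i) = flipBit z i := by
          unfold flipBit
          congr 1
          cases hy : y i <;> cases hzi : z i <;> simp_all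
        rw [h3]
        by_contra h4
        refine ht i (Finset.mem_insert_self _ _) ?_
        unfold Circuit.dependsOn
        rw [Finset.mem_filter]
        exact ⟨Finset.mem_univ _, z, a z, a (flipBit z i), ha.inp z, ha.gate z,
          ha.inp (flipBit z i), ha.gate (flipBit z i), fun h => h4 h.symm⟩
  have h1 := key (Finset.univ.filter (fun i => i ∉ C.dependsOn g))
    (fun i hi => (Finset.mem_filter.1 hi).2)
  have h2 : (Finset.univ.filter (fun i => i ∉ C.dependsOn g)).piecewise y x = y := by
    funext i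
    by_cases hi : i ∈ C.dependsOn g
    · rw [Finset.piecewise_eq_of_notMem _ _ _ (by simpa using hi)]
      exact h i hi
    · rw [Finset.piecewise_eq_of_mem _ _ _ (by simpa using hi)]
  rw [h2] at h1
  exact h1.symm

/-- the nodes of the abstract circuit: pairs of a vertex and a value, and two constants -/
abbrev Nd (N s : ℕ) : Type := ((Fin N ⊕ Fin s) × Bool) ⊕ Bool

section

variable (C : Circuit N s) (V : Finset (Fin N)) (Z Y : Finset (Fin s)) (q : ℕ)
  (mu : Fin N ⊕ Fin s → Bool → Fin N → ℕ)

/-- the node for the value `b` of the vertex `u`, seen from above -/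
def cn : Fin N ⊕ Fin s → Bool → Nd N s
  | .inl j, b => .inl (.inl j, b)
  | .inr g, b => if g ∈ Z then .inr (decide (g ∈ Y) == b) else .inl (.inr g, b)

open Classical in
/-- the kinds of the nodes -/
noncomputable def ndKind : Nd N s → Kind (Nd N s)
  | .inr _ => .atom
  | .inl (.inl _, _) => .atom
  | .inl (.inr g, b) => if LocalRule C V q mu g b then .atom else
    match C.op g with
    | .not u => .or (cn Z Y u (!b)) (cn Z Y u (!b))
    | .and u v => if b = true then
        (if u = v then .or (cn Z Y u true) (cn Z Y u true)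
          else .and (cn Z Y u true) (cn Z Y v true))
        else .or (cn Z Y u false) (cn Z Y v false)
    | .or u v => if b = false then
        (if u = v then .or (cn Z Y u false) (cn Z Y u false)
          else .and (cn Z Y u false) (cn Z Y v false))
        else .or (cn Z Y u true) (cn Z Y v true)

open Classical in
/-- the numbers attached to the nodes -/
noncomputable def ndMu : Nd N s → Fin N → ℕ
  | .inr _, _ => 0
  | .inl (.inl j, _), i => if i = j then 1 else 0
  | .inl (.inr g, b), i => if LocalRule C V q mu g b then (if i ∈ C.dependsOn g then 1 else 0)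
      else mu (.inr g) b i

/-- the truth of the atoms -/
def ndAv (a : (Fin N → Bool) → Fin N ⊕ Fin s → Bool) (x : Fin N → Bool) : Nd N s → Prop
  | .inr c => c = true
  | .inl (u, b) => a x u = b

/-- the rank of a node -/
def ndRank (rk : Fin N ⊕ Fin s → ℕ) : Nd N s → ℕ
  | .inr _ => 0
  | .inl (u, _) => rk u + 1

variable {C V Z Y q mu}

lemma ndMu_gate_le (g : Fin s) (b : Bool) (i : Fin N) :
    ndMu C V q mu (.inl (.inr g, b)) i ≤ mu (.inr g) b i := by
  classical
  by_cases h : LocalRule C V q mu g b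
  · simp only [ndMu, if_pos h]
    by_cases hi : i ∈ C.dependsOn g
    · rw [if_pos hi]
      exact h.2 i hi
    · rw [if_neg hi]
      exact Nat.zero_le _
  · simp only [ndMu, if_neg h]
    exact le_rfl

lemma ndMu_cn_le (hmu : ∀ j b i, mu (.inl j) b i = if i = j then 1 else 0)
    (u : Fin N ⊕ Fin s) (b : Bool) (i : Fin N) :
    ndMu C V q mu (cn Z Y u b) i ≤ cut Z mu u b i := by
  rcases u with j | g
  · exact (hmu j b i).ge
  · unfold cn cut
    by_cases hg : g ∈ Z
    · simp only [if_pos hg]
      exact le_rfl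
    · simp only [if_neg hg]
      exact ndMu_gate_le g b i

lemma ndRank_cn_le (rk : Fin N ⊕ Fin s → ℕ) (u : Fin N ⊕ Fin s) (b : Bool) :
    ndRank rk (cn Z Y u b) ≤ rk u + 1 := by
  rcases u with j | g
  · exact le_rfl
  · unfold cn
    by_cases hg : g ∈ Z
    · simp only [if_pos hg]
      exact Nat.zero_le _
    · simp only [if_neg hg]
      exact le_rfl

/-- what the kind of a node says -/
lemma ndKind_gate (g : Fin s) (b : Bool) :
    (LocalRule C V q mu g b ∧ ndKind C V Z Y q mu (.inl (.inr g, b)) = .atom) ∨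
    (¬ LocalRule C V q mu g b ∧
      ((∃ u, C.op g = .not u ∧
          ndKind C V Z Y q mu (.inl (.inr g, b)) = .or (cn Z Y u (!b)) (cn Z Y u (!b))) ∨
       (∃ u v, C.op g = .and u v ∧ b = true ∧ u = v ∧
          ndKind C V Z Y q mu (.inl (.inr g, b)) = .or (cn Z Y u true) (cn Z Y u true)) ∨
       (∃ u v, C.op g = .and u v ∧ b = true ∧ u ≠ v ∧
          ndKind C V Z Y q mu (.inl (.inr g, b)) = .and (cn Z Y u true) (cn Z Y v true)) ∨
       (∃ u v, C.op g = .and u v ∧ b = false ∧
          ndKind C V Z Y q mu (.inl (.inr g, b)) = .or (cn Z Y u false) (cn Z Y v false)) ∨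
       (∃ u v, C.op g = .or u v ∧ b = false ∧ u = v ∧
          ndKind C V Z Y q mu (.inl (.inr g, b)) = .or (cn Z Y u false) (cn Z Y u false)) ∨
       (∃ u v, C.op g = .or u v ∧ b = false ∧ u ≠ v ∧
          ndKind C V Z Y q mu (.inl (.inr g, b)) = .and (cn Z Y u false) (cn Z Y v false)) ∨
       (∃ u v, C.op g = .or u v ∧ b = true ∧
          ndKind C V Z Y q mu (.inl (.inr g, b)) = .or (cn Z Y u true) (cn Z Y v true)))) := by
  classical
  by_cases h : LocalRule C V q mu g b
  · left
    refine ⟨h, ?_⟩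
    simp only [ndKind, if_pos h]
  · right
    refine ⟨h, ?_⟩
    simp only [ndKind, if_neg h]
    rcases hop : C.op g with ⟨u, v⟩ | ⟨u, v⟩ | u
    · cases b
      · right; right; right; left
        exact ⟨u, v, rfl, rfl, by simp⟩
      · by_cases huv : u = v
        · right; left
          exact ⟨u, v, rfl, rfl, huv, by simp [huv]⟩
        · right; right; left
          exact ⟨u, v, rfl, rfl, huv, by simp [huv]⟩
    · cases b
      · by_cases huv : u = v
        · right; right; right; right; left
          exact ⟨u, v, rfl, rfl, huv, by simp [huv]⟩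
        · right; right; right; right; right; left
          exact ⟨u, v, rfl, rfl, huv, by simp [huv]⟩
      · right; right; right; right; right; right
        exact ⟨u, v, rfl, rfl, by simp⟩
    · left
      exact ⟨u, rfl, rfl⟩

/-- the counting rule, spelled out: conjunctions -/
lemma rule_and {g : Fin s} {b : Bool} {u v : Fin N ⊕ Fin s} {c : Bool}
    (hr : CountRule C Z mu g b) (huv : u ≠ v)
    (hop : (C.op g = .and u v ∧ b = true ∧ c = true) ∨ (C.op g = .or u v ∧ b = false ∧ c = false))
    (i : Fin N) : cut Z mu u c i + cut Z mu v c i ≤ mu (.inr g) b i := by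
  unfold CountRule at hr
  rcases hop with ⟨hop, rfl, rfl⟩ | ⟨hop, rfl, rfl⟩
  · rw [hop] at hr
    simp only [if_true] at hr
    have := hr i
    rwa [Finset.sum_pair huv] at this
  · rw [hop] at hr
    simp only [if_true] at hr
    have := hr i
    rwa [Finset.sum_pair huv] at this

/-- the counting rule, spelled out: a bound for each predecessor -/
lemma rule_or {g : Fin s} {b : Bool} {u v : Fin N ⊕ Fin s} {c : Bool}
    (hr : CountRule C Z mu g b)
    (hop : (C.op g = .and u v ∧ b = c) ∨ (C.op g = .or u v ∧ b = c) ∨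
      (C.op g = .not u ∧ u = v ∧ c = !b))
    (i : Fin N) : cut Z mu u c i ≤ mu (.inr g) b i ∧ cut Z mu v c i ≤ mu (.inr g) b i := by
  unfold CountRule at hr
  rcases hop with ⟨hop, rfl⟩ | ⟨hop, rfl⟩ | ⟨hop, rfl, rfl⟩
  · rw [hop] at hr
    cases b
    · simp only [Bool.false_eq_true, if_false] at hr
      exact ⟨hr u (by simp) i, hr v (by simp) i⟩
    · simp only [if_true] at hr
      have h1 := hr i
      have h2 : ∀ w ∈ ({u, v} : Finset (Fin N ⊕ Fin s)), cut Z mu w true i ≤
          ∑ w ∈ {u, v}, cut Z mu w true i := fun w hw =>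
        Finset.single_le_sum (f := fun w => cut Z mu w true i) (fun _ _ => Nat.zero_le _) hw
      exact ⟨(h2 u (by simp)).trans h1, (h2 v (by simp)).trans h1⟩
  · rw [hop] at hr
    cases b
    · simp only [if_true] at hr
      have h1 := hr i
      have h2 : ∀ w ∈ ({u, v} : Finset (Fin N ⊕ Fin s)), cut Z mu w false i ≤
          ∑ w ∈ {u, v}, cut Z mu w false i := fun w hw =>
        Finset.single_le_sum (f := fun w => cut Z mu w false i) (fun _ _ => Nat.zero_le _) hw
      exact ⟨(h2 u (by simp)).trans h1, (h2 v (by simp)).trans h1⟩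
    · simp only [Bool.true_eq_false, if_false] at hr
      exact ⟨hr u (by simp) i, hr v (by simp) i⟩
  · rw [hop] at hr
    exact ⟨hr i, hr i⟩

/-- the kinds `and` of the nodes -/
lemma ndKind_and {w x y : Nd N s} (h : ndKind C V Z Y q mu w = .and x y) :
    ∃ g b u v, w = .inl (.inr g, b) ∧ ¬ LocalRule C V q mu g b ∧ u ≠ v ∧ u ∈ (C.op g).preds ∧
      v ∈ (C.op g).preds ∧ x = cn Z Y u b ∧ y = cn Z Y v b ∧
      ((C.op g = .and u v ∧ b = true) ∨ (C.op g = .or u v ∧ b = false)) := by
  rcases w with ⟨j | g, b⟩ | c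
  · simp [ndKind] at h
  · rcases ndKind_gate (C := C) (V := V) (Z := Z) (Y := Y) (q := q) (mu := mu) g b with
      ⟨_, hk⟩ | ⟨hl, ⟨u, hop, hk⟩ | ⟨u, v, hop, hb, huv, hk⟩ | ⟨u, v, hop, hb, huv, hk⟩ |
        ⟨u, v, hop, hb, hk⟩ | ⟨u, v, hop, hb, huv, hk⟩ | ⟨u, v, hop, hb, huv, hk⟩ |
        ⟨u, v, hop, hb, hk⟩⟩
    · rw [hk] at h; cases h
    · rw [hk] at h; cases h
    · rw [hk] at h; cases h
    · rw [hk] at h
      cases h
      refine ⟨g, b, u, v, rfl, hl, huv, ?_, ?_, ?_, ?_, Or.inl ⟨hop, hb⟩⟩
      · rw [hop]; simp [Op.preds]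
      · rw [hop]; simp [Op.preds]
      · rw [hb]
      · rw [hb]
    · rw [hk] at h; cases h
    · rw [hk] at h; cases h
    · rw [hk] at h
      cases h
      refine ⟨g, b, u, v, rfl, hl, huv, ?_, ?_, ?_, ?_, Or.inr ⟨hop, hb⟩⟩
      · rw [hop]; simp [Op.preds]
      · rw [hop]; simp [Op.preds]
      · rw [hb]
      · rw [hb]
    · rw [hk] at h; cases h
  · simp [ndKind] at h

/-- the kinds `or` of the nodes -/
lemma ndKind_or {w x y : Nd N s} (h : ndKind C V Z Y q mu w = .or x y) :
    ∃ g b c u v, w = .inl (.inr g, b) ∧ ¬ LocalRule C V q mu g b ∧ u ∈ (C.op g).preds ∧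
      v ∈ (C.op g).preds ∧ x = cn Z Y u c ∧ y = cn Z Y v c ∧
      ((C.op g = .not u ∧ u = v ∧ c = !b) ∨ (C.op g = .and u v ∧ b = c ∧ (b = false ∨ u = v)) ∨
        (C.op g = .or u v ∧ b = c ∧ (b = true ∨ u = v))) := by
  rcases w with ⟨j | g, b⟩ | c
  · simp [ndKind] at h
  · rcases ndKind_gate (C := C) (V := V) (Z := Z) (Y := Y) (q := q) (mu := mu) g b with
      ⟨_, hk⟩ | ⟨hl, ⟨u, hop, hk⟩ | ⟨u, v, hop, hb, huv, hk⟩ | ⟨u, v, hop, hb, huv, hk⟩ |
        ⟨u, v, hop, hb, hk⟩ | ⟨u, v, hop, hb, huv, hk⟩ | ⟨u, v, hop, hb, huv, hk⟩ |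
        ⟨u, v, hop, hb, hk⟩⟩
    · rw [hk] at h; cases h
    · rw [hk] at h
      cases h
      refine ⟨g, b, !b, u, u, rfl, hl, ?_, ?_, rfl, rfl, Or.inl ⟨hop, rfl, rfl⟩⟩
      · rw [hop]; simp [Op.preds]
      · rw [hop]; simp [Op.preds]
    · rw [hk] at h
      cases h
      subst huv
      refine ⟨g, b, b, u, u, rfl, hl, ?_, ?_, ?_, ?_, Or.inr (Or.inl ⟨hop, rfl, Or.inr rfl⟩)⟩
      · rw [hop]; simp [Op.preds]
      · rw [hop]; simp [Op.preds]
      · rw [hb]
      · rw [hb]
    · rw [hk] at h; cases h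
    · rw [hk] at h
      cases h
      refine ⟨g, b, b, u, v, rfl, hl, ?_, ?_, ?_, ?_, Or.inr (Or.inl ⟨hop, rfl, Or.inl hb⟩)⟩
      · rw [hop]; simp [Op.preds]
      · rw [hop]; simp [Op.preds]
      · rw [hb]
      · rw [hb]
    · rw [hk] at h
      cases h
      subst huv
      refine ⟨g, b, b, u, u, rfl, hl, ?_, ?_, ?_, ?_, Or.inr (Or.inr ⟨hop, rfl, Or.inr rfl⟩)⟩
      · rw [hop]; simp [Op.preds]
      · rw [hop]; simp [Op.preds]
      · rw [hb]
      · rw [hb]
    · rw [hk] at h; cases h
    · rw [hk] at h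
      cases h
      refine ⟨g, b, b, u, v, rfl, hl, ?_, ?_, ?_, ?_, Or.inr (Or.inr ⟨hop, rfl, Or.inl hb⟩)⟩
      · rw [hop]; simp [Op.preds]
      · rw [hop]; simp [Op.preds]
      · rw [hb]
      · rw [hb]
  · simp [ndKind] at h

/-- the kinds `atom` of the nodes -/
lemma ndKind_atom {g : Fin s} {b : Bool} (h : ndKind C V Z Y q mu (.inl (.inr g, b)) = .atom) :
    LocalRule C V q mu g b := by
  rcases ndKind_gate (C := C) (V := V) (Z := Z) (Y := Y) (q := q) (mu := mu) g b with
      ⟨hl, _⟩ | ⟨hl, ⟨u, hop, hk⟩ | ⟨u, v, hop, hb, huv, hk⟩ | ⟨u, v, hop, hb, huv, hk⟩ |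
        ⟨u, v, hop, hb, hk⟩ | ⟨u, v, hop, hb, huv, hk⟩ | ⟨u, v, hop, hb, huv, hk⟩ |
        ⟨u, v, hop, hb, hk⟩⟩
  · exact hl
  all_goals
    rw [hk] at h
    cases h

/-- the abstract circuit -/
noncomputable def net (C : Circuit N s) (V : Finset (Fin N)) (Z Y : Finset (Fin s)) (q : ℕ)
    (mu : Fin N ⊕ Fin s → Bool → Fin N → ℕ)
    (hmu : ∀ j b i, mu (.inl j) b i = if i = j then 1 else 0)
    (hrule : ∀ g b, CountRule C Z mu g b ∨ LocalRule C V q mu g b)
    (rk : Fin N ⊕ Fin s → ℕ) (hrk : ∀ g, ∀ u ∈ (C.op g).preds, rk u < rk (.inr g))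
    (a : (Fin N → Bool) → Fin N ⊕ Fin s → Bool) (ha : Real C a) : Net (Fin N) (Nd N s) where
  kind := ndKind C V Z Y q mu
  rank := ndRank rk
  val := fun x => Val (ndKind C V Z Y q mu) (ndAv a x)
  mu := ndMu C V q mu
  rank_and := by
    intro w x y h
    obtain ⟨g, b, u, v, rfl, _, _, hu, hv, rfl, rfl, _⟩ := ndKind_and h
    have h1 := ndRank_cn_le (Z := Z) (Y := Y) rk u b
    have h2 := ndRank_cn_le (Z := Z) (Y := Y) rk v b
    have h3 := hrk g u hu
    have h4 := hrk g v hv
    have h5 : ndRank rk (.inl (.inr g, b) : Nd N s) = rk (.inr g) + 1 := rfl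
    omega
  rank_or := by
    intro w x y h
    obtain ⟨g, b, c, u, v, rfl, _, hu, hv, rfl, rfl, _⟩ := ndKind_or h
    have h1 := ndRank_cn_le (Z := Z) (Y := Y) rk u c
    have h2 := ndRank_cn_le (Z := Z) (Y := Y) rk v c
    have h3 := hrk g u hu
    have h4 := hrk g v hv
    have h5 : ndRank rk (.inl (.inr g, b) : Nd N s) = rk (.inr g) + 1 := rfl
    omega
  val_and := fun x w u v h => Val.and_iff h
  val_or := fun x w u v h => Val.or_iff h
  mu_and := by
    classical
    intro w x y i h
    obtain ⟨g, b, u, v, rfl, hl, huv, hu, hv, rfl, rfl, hop⟩ := ndKind_and h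
    have h1 := ndMu_cn_le (C := C) (V := V) (Z := Z) (Y := Y) (q := q) hmu u b i
    have h2 := ndMu_cn_le (C := C) (V := V) (Z := Z) (Y := Y) (q := q) hmu v b i
    have h3 : ndMu C V q mu (.inl (.inr g, b)) i = mu (.inr g) b i := by
      simp only [ndMu, if_neg hl]
    have h4 := rule_and (c := b) ((hrule g b).resolve_right hl) huv
      (hop.imp (fun h => ⟨h.1, h.2, h.2⟩) (fun h => ⟨h.1, h.2, h.2⟩)) i
    omega
  mu_or := by
    classical
    intro w x y i h
    obtain ⟨g, b, c, u, v, rfl, hl, hu, hv, rfl, rfl, hop⟩ := ndKind_or h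
    have h1 := ndMu_cn_le (C := C) (V := V) (Z := Z) (Y := Y) (q := q) hmu u c i
    have h2 := ndMu_cn_le (C := C) (V := V) (Z := Z) (Y := Y) (q := q) hmu v c i
    have h3 : ndMu C V q mu (.inl (.inr g, b)) i = mu (.inr g) b i := by
      simp only [ndMu, if_neg hl]
    have h4 := rule_or (c := c) ((hrule g b).resolve_right hl)
      (by
        rcases hop with h | h | h
        · exact Or.inr (Or.inr h)
        · exact Or.inl ⟨h.1, h.2.1⟩
        · exact Or.inr (Or.inl ⟨h.1, h.2.1⟩)) i
    omega
  dep := by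
    classical
    intro w x y hxy hval
    induction hval with
    | @atom w hk hav =>
      refine Val.atom hk ?_
      rcases w with ⟨j | g, b⟩ | c
      · have h1 : x j = y j := hxy j (by simp [ndMu])
        have h2 : a x (.inl j) = b := hav
        change a y (.inl j) = b
        rw [ha.inp] at h2 ⊢
        rw [← h1, h2]
      · have hl := ndKind_atom hk
        have h2 : a x (.inr g) = b := hav
        change a y (.inr g) = b
        rw [← ha.dep g x y, h2]
        intro i hi
        refine hxy i ?_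
        simp only [ndMu, if_pos hl, if_pos hi]
        exact le_rfl
      · exact hav
    | @and w u v hk _ _ ih1 ih2 =>
      have hmu' : ∀ i, ndMu C V q mu u i + ndMu C V q mu v i ≤ ndMu C V q mu w i := by
        intro i
        obtain ⟨g, b, u', v', rfl, hl, huv, hu, hv, rfl, rfl, hop⟩ := ndKind_and hk
        have h1 := ndMu_cn_le (C := C) (V := V) (Z := Z) (Y := Y) (q := q) hmu u' b i
        have h2 := ndMu_cn_le (C := C) (V := V) (Z := Z) (Y := Y) (q := q) hmu v' b i
        have h3 : ndMu C V q mu (.inl (.inr g, b)) i = mu (.inr g) b i := by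
          simp only [ndMu, if_neg hl]
        have h4 := rule_and (c := b) ((hrule g b).resolve_right hl) huv
          (hop.imp (fun h => ⟨h.1, h.2, h.2⟩) (fun h => ⟨h.1, h.2, h.2⟩)) i
        omega
      refine Val.and hk (ih1 fun i hi => hxy i ?_) (ih2 fun i hi => hxy i ?_)
      · have := hmu' i
        omega
      · have := hmu' i
        omega
    | @orl w u v hk _ ih =>
      refine Val.orl hk (ih fun i hi => hxy i ?_)
      obtain ⟨g, b, c, u', v', rfl, hl, hu, hv, rfl, rfl, hop⟩ := ndKind_or hk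
      have h1 := ndMu_cn_le (C := C) (V := V) (Z := Z) (Y := Y) (q := q) hmu u' c i
      have h3 : ndMu C V q mu (.inl (.inr g, b)) i = mu (.inr g) b i := by
        simp only [ndMu, if_neg hl]
      have h4 := rule_or (c := c) ((hrule g b).resolve_right hl)
        (by
          rcases hop with h | h | h
          · exact Or.inr (Or.inr h)
          · exact Or.inl ⟨h.1, h.2.1⟩
          · exact Or.inr (Or.inl ⟨h.1, h.2.1⟩)) i
      omega
    | @orr w u v hk _ ih =>
      refine Val.orr hk (ih fun i hi => hxy i ?_)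
      obtain ⟨g, b, c, u', v', rfl, hl, hu, hv, rfl, rfl, hop⟩ := ndKind_or hk
      have h1 := ndMu_cn_le (C := C) (V := V) (Z := Z) (Y := Y) (q := q) hmu v' c i
      have h3 : ndMu C V q mu (.inl (.inr g, b)) i = mu (.inr g) b i := by
        simp only [ndMu, if_neg hl]
      have h4 := rule_or (c := c) ((hrule g b).resolve_right hl)
        (by
          rcases hop with h | h | h
          · exact Or.inr (Or.inr h)
          · exact Or.inl ⟨h.1, h.2.1⟩
          · exact Or.inr (Or.inl ⟨h.1, h.2.1⟩)) i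
      omega

end

end Pool.Agent.Lib_MP_22d2c8_read
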